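import Pool.Agent.N204.GT.Defs

/-!
# Varieties of ordinary K3 type
-/

open CategoryTheory AlgebraicGeometry

universe u v

namespace Pool.Agent.W2helper27.K3

open Pool.Agent.H914 Pool.Agent.H914.VarClass Pool.Agent.H914.VarClass.Obj
  Pool.Agent.H914.WeilCohomology Pool.Agent.W534 Pool.Agent.R940 Pool.Agent.N204.GT Polynomial
open Pool.Agent.Y163 (pw)

variable {k : Type u} [Field k] {𝒱 : VarClass k} {ops : CycleOps 𝒱}

/-- The variety `X` is of ordinary K3 type in degree `2 d`, `d ≥ 1`. Let `q = p ^ (Φ.e X)` be the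
number of elements of the field over which `Φ.Fr X` is the Frobenius endomorphism of (a model of)
`X`. The cohomology of `X` of odd degree is zero (the characteristic polynomial of Frobenius is
`1`); all slopes of the Frobenius endomorphism on `H^(2 j)(X)`, `j ≠ d`, are `j`; one slope on
`H^(2 d)(X)` is `d - 1`, with multiplicity one, and all the other slopes on `H^(2 d)(X)` are at least
`d`. Here the slopes are the numbers `s` such that the characteristic polynomial, with its integral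
coefficients, has a root in an algebraic closure of the field of the `p`-adic numbers with the
absolute value `q ^ (-s)`. -/
structure IsOrdinaryK3Type {W : WeilCohomology.{u, v} ops} {p : ℕ} [Fact p.Prime]
    (Φ : FrobSystem W p) (σ : W.K →+* ℂ) (X : 𝒱.Obj) (d : ℕ) : Prop where
  one_le : 1 ≤ d
  odd : ∀ i, Odd i → frobPoly Φ σ X 1 i = 1
  other : ∀ j, j ≠ d → ∀ P : ℤ[X], frobPoly Φ σ X 1 (2 * j) = P.map (Int.castRingHom ℂ) →
    ∀ y : PadicAlgCl p, aeval y P = 0 → ‖y‖ = ((p : ℝ) ^ Φ.e X) ^ (-(j : ℤ))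
  middle : ∀ P : ℤ[X], frobPoly Φ σ X 1 (2 * d) = P.map (Int.castRingHom ℂ) →
    ∃ z : PadicAlgCl p, ‖z‖ = ((p : ℝ) ^ Φ.e X) ^ (-((d : ℤ) - 1)) ∧
      (P.map (Int.castRingHom (PadicAlgCl p))).rootMultiplicity z = 1 ∧
      ∀ y : PadicAlgCl p, aeval y P = 0 → y ≠ z → ‖y‖ ≤ ((p : ℝ) ^ Φ.e X) ^ (-(d : ℤ))

/-- The number of the complex roots of the characteristic polynomial of the Frobenius endomorphism on
`H^(2 d)(X)` which are not the product of `q ^ d` and a root of unity, `q = p ^ (Φ.e X)`. -/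
noncomputable def transcendentalRank {W : WeilCohomology.{u, v} ops} {p : ℕ} (Φ : FrobSystem W p)
    (σ : W.K →+* ℂ) (X : 𝒱.Obj) (d : ℕ) : ℕ :=
  Set.ncard {z : ℂ | (frobPoly Φ σ X 1 (2 * d)).IsRoot z ∧
    ∀ m : ℕ, 0 < m → z ^ m ≠ (((p : ℂ) ^ Φ.e X) ^ d) ^ m}

/-- The number `N = max (2, (r / 2) max (1, 2 dim Z))`, where `r` is the transcendental rank of
`X`. -/
noncomputable def k3Power {W : WeilCohomology.{u, v} ops} {p : ℕ} (Φ : FrobSystem W p)
    (σ : W.K →+* ℂ) (Z X : 𝒱.Obj) (d : ℕ) : ℕ :=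
  max 2 (transcendentalRank Φ σ X d / 2 * max 1 (2 * Z.dim))

end Pool.Agent.W2helper27.K3
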