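import Mathlib

/-!
# Splitting of exponent vectors for slopes of ordinary K3 type
-/

set_option autoImplicit false
set_option linter.unusedSectionVars false

namespace Pool.Agent.W2helper27.K3

open Finset

/-- Pigeonhole: a vector with large sum, supported in a set without pairs, has a large entry. -/
lemma exists_large {ι : Type*} [Fintype ι] [DecidableEq ι] {T : Finset ι} {τ : ι → ι}
    (hτ : ∀ l ∈ T, τ l ∈ T) (hττ : ∀ l ∈ T, τ (τ l) = l) {c : ι → ℕ} (hsupp : ∀ l, l ∉ T → c l = 0)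
    (hsec : ∀ l ∈ T, 0 < c l → c (τ l) = 0) {q : ℕ} (hN : T.card / 2 * q < ∑ l, c l) :
    2 * (univ.filter fun l => 0 < c l).card ≤ T.card ∧ ∃ l ∈ T, q < c l := by
  classical
  set S : Finset ι := univ.filter fun l => 0 < c l with hS
  have hST : S ⊆ T := by
    intro l hl
    by_contra h
    have h1 := (mem_filter.1 hl).2
    rw [hsupp l h] at h1
    exact lt_irrefl _ h1
  have hinj : Set.InjOn τ (S : Set ι) := by
    intro a ha b hb hab
    have h1 := hττ a (hST ha)
    have h2 := hττ b (hST hb)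
    rw [← h1, hab, h2]
  have hdisj : Disjoint S (S.image τ) := by
    rw [Finset.disjoint_left]
    intro l hl hl'
    obtain ⟨m, hm, rfl⟩ := mem_image.1 hl'
    have h1 := hsec m (hST hm) (mem_filter.1 hm).2
    have h2 := (mem_filter.1 hl).2
    omega
  have hcard : 2 * S.card ≤ T.card := by
    have h1 : (S ∪ S.image τ).card ≤ T.card := by
      apply card_le_card
      apply union_subset hST
      intro l hl
      obtain ⟨m, hm, rfl⟩ := mem_image.1 hl
      exact hτ m (hST hm)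
    rw [card_union_of_disjoint hdisj, card_image_of_injOn hinj] at h1
    omega
  refine ⟨hcard, ?_⟩
  by_contra hcon
  push Not at hcon
  have h1 : ∑ l, c l = ∑ l ∈ S, c l := by
    symm
    apply sum_subset (subset_univ _)
    intro l _ hl
    by_contra h
    exact hl (mem_filter.2 ⟨mem_univ _, Nat.pos_of_ne_zero h⟩)
  have h2 : ∑ l ∈ S, c l ≤ ∑ _l ∈ S, q := sum_le_sum fun l hl => hcon l (hST hl)
  rw [sum_const, smul_eq_mul] at h2
  have h3 : S.card * q ≤ T.card / 2 * q := Nat.mul_le_mul_right _ (by omega)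
  omega

variable {ι Ψ : Type*} [Fintype ι] [DecidableEq ι]

lemma sum_sub_cast {f : ι → ℕ} {c m : ι → ℕ} (hm : ∀ l, m l ≤ c l) :
    ∑ l, (f l : ℝ) * (((c - m) l : ℕ) : ℝ) =
      ∑ l, (f l : ℝ) * (c l : ℝ) - ∑ l, (f l : ℝ) * (m l : ℝ) := by
  rw [← sum_sub_distrib]
  refine sum_congr rfl fun l _ => ?_
  rw [Pi.sub_apply, Nat.cast_sub (hm l)]
  ring

lemma sum_mono_cast {f : ι → ℕ} {c m : ι → ℕ} (hm : ∀ l, m l ≤ c l) :
    ∑ l, (f l : ℝ) * (m l : ℝ) ≤ ∑ l, (f l : ℝ) * (c l : ℝ) :=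
  sum_le_sum fun l _ => mul_le_mul_of_nonneg_left (by exact_mod_cast hm l) (Nat.cast_nonneg _)

/-- Splitting off a vector whose slopes are constant. -/
lemma split_const {f : Ψ → ι → ℕ} {G : Ψ → ℝ} (hG : ∀ ψ, 0 ≤ G ψ) {c m : ι → ℕ}
    (hm : ∀ l, m l ≤ c l) {j ν : ℕ} (hj : ∀ ψ, ∑ l, (f ψ l : ℝ) * (m l : ℝ) = j)
    (hc : ∀ ψ, (ν : ℝ) ≤ G ψ + ∑ l, (f ψ l : ℝ) * (c l : ℝ)) :
    ∃ v ≤ ν, (∀ ψ, (v : ℝ) ≤ ∑ l, (f ψ l : ℝ) * (m l : ℝ)) ∧
      ∀ ψ, (ν : ℝ) - v ≤ G ψ + ∑ l, (f ψ l : ℝ) * (((c - m) l : ℕ) : ℝ) := by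
  refine ⟨min ν j, min_le_left _ _, fun ψ => ?_, fun ψ => ?_⟩
  · rw [hj ψ]
    exact_mod_cast min_le_right ν j
  · rw [sum_sub_cast hm]
    rcases le_total ν j with h | h
    · rw [min_eq_left h]
      have h1 := sum_mono_cast (f := f ψ) hm
      have h2 := hG ψ
      linarith
    · rw [min_eq_right h, hj ψ]
      have := hc ψ
      linarith

/-- **Splitting for slopes of ordinary K3 type.** The slopes `f ψ l` are constant for `l` outside `T`;
for `l` in `T` they are `d`, except that they are `d - 1` for at most one `l` in `T` and `d + 1` for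
the partner `τ l` of this `l`. -/
theorem k3_split {T : Finset ι} {τ : ι → ι} {d w : ℕ} (hd : 1 ≤ d) {f : Ψ → ι → ℕ}
    (hτ : ∀ l ∈ T, τ l ∈ T) (hττ : ∀ l ∈ T, τ (τ l) = l)
    (hsum : ∀ ψ, ∀ l ∈ T, f ψ l + f ψ (τ l) = 2 * d)
    (hlow : ∀ ψ, ∀ l ∈ T, f ψ l + 1 = d ∨ d ≤ f ψ l)
    (hex : ∀ l ∈ T, ∃ ψ, f ψ l + 1 = d)
    (huniq : ∀ ψ, ∀ l ∈ T, ∀ l' ∈ T, f ψ l + 1 = d → f ψ l' + 1 = d → l = l')
    (hconst : ∀ l, l ∉ T → ∃ j, ∀ ψ, f ψ l = j)
    {G : Ψ → ℝ} (hG0 : ∀ ψ, 0 ≤ G ψ) (hG1 : ∀ ψ, G ψ ≤ w) {c : ι → ℕ} {ν : ℕ}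
    (hc : ∀ ψ, (ν : ℝ) ≤ G ψ + ∑ l, (f ψ l : ℝ) * (c l : ℝ))
    (hN : max 2 (T.card / 2 * max 1 w) < ∑ l, c l) :
    ∃ (m : ι → ℕ) (v : ℕ), (∀ l, m l ≤ c l) ∧ v ≤ ν ∧ 0 < ∑ l, m l ∧ ∑ l, m l < ∑ l, c l ∧
      (∀ ψ, (v : ℝ) ≤ ∑ l, (f ψ l : ℝ) * (m l : ℝ)) ∧
      ∀ ψ, (ν : ℝ) - v ≤ G ψ + ∑ l, (f ψ l : ℝ) * (((c - m) l : ℕ) : ℝ) := by
  classical
  have hN2 : 2 < ∑ l, c l := (le_max_left _ _).trans_lt hN
  have hN3 : T.card / 2 * max 1 w < ∑ l, c l := (le_max_right _ _).trans_lt hN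
  -- a label outside `T`
  by_cases h1 : ∃ l, l ∉ T ∧ c l ≠ 0
  · obtain ⟨l, hl, hcl⟩ := h1
    obtain ⟨j, hj⟩ := hconst l hl
    have hm : ∀ l', (Pi.single l 1 : ι → ℕ) l' ≤ c l' := by
      intro l'
      by_cases h : l' = l
      · subst h
        rw [Pi.single_eq_same]
        omega
      · rw [Pi.single_eq_of_ne h]
        omega
    have hs : ∑ l', (Pi.single l 1 : ι → ℕ) l' = 1 := by
      rw [Finset.sum_pi_single']
      simp
    obtain ⟨v, hv1, hv2, hv3⟩ := split_const (f := f) hG0 hm (j := j) (ν := ν) (fun ψ => by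
      rw [Finset.sum_eq_single l]
      · rw [Pi.single_eq_same, hj ψ]
        simp
      · intro b _ hb
        rw [Pi.single_eq_of_ne hb]
        simp
      · intro h
        exact absurd (mem_univ _) h) hc
    exact ⟨_, v, hm, hv1, by rw [hs]; exact one_pos, by rw [hs]; omega, hv2, hv3⟩
  push Not at h1
  -- a pair in `T`
  by_cases h2 : ∃ l ∈ T, 0 < c l ∧ c (τ l) ≠ 0
  · obtain ⟨l, hl, hcl, hcl'⟩ := h2
    have hne : τ l ≠ l := by
      intro h
      obtain ⟨ψ, hψ⟩ := hex l hl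
      have := hsum ψ l hl
      rw [h] at this
      omega
    have hm : ∀ l', (Pi.single l 1 + Pi.single (τ l) 1 : ι → ℕ) l' ≤ c l' := by
      intro l'
      rw [Pi.add_apply]
      by_cases h : l' = l
      · subst h
        rw [Pi.single_eq_same, Pi.single_eq_of_ne hne.symm]
        omega
      · rw [Pi.single_eq_of_ne h]
        by_cases h' : l' = τ l
        · subst h'
          rw [Pi.single_eq_same]
          omega
        · rw [Pi.single_eq_of_ne h']
          omega
    have hs : ∑ l', (Pi.single l 1 + Pi.single (τ l) 1 : ι → ℕ) l' = 2 := by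
      simp only [Pi.add_apply, sum_add_distrib]
      rw [Finset.sum_pi_single', Finset.sum_pi_single']
      simp
    obtain ⟨v, hv1, hv2, hv3⟩ := split_const (f := f) hG0 hm (j := 2 * d) (ν := ν) (fun ψ => by
      have e1 : ∀ l', (f ψ l' : ℝ) * (((Pi.single l 1 + Pi.single (τ l) 1 : ι → ℕ) l' : ℕ) : ℝ) =
          (if l' = l then (f ψ l' : ℝ) else 0) + (if l' = τ l then (f ψ l' : ℝ) else 0) := by
        intro l'
        rw [Pi.add_apply, Pi.single_apply, Pi.single_apply]
        split_ifs <;> push_cast <;> ring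
      rw [Finset.sum_congr rfl fun l' _ => e1 l', sum_add_distrib, Finset.sum_ite_eq',
        Finset.sum_ite_eq', if_pos (mem_univ _), if_pos (mem_univ _)]
      exact_mod_cast hsum ψ l hl) hc
    exact ⟨_, v, hm, hv1, by rw [hs]; exact two_pos, by rw [hs]; omega, hv2, hv3⟩
  push Not at h2
  -- the support of `c` contains no pair
  obtain ⟨hcard, l₀, hl₀, hbig⟩ := exists_large hτ hττ (c := c) h1 h2 hN3
  -- the slopes of a vector supported in `T`
  have hf1 : ∀ ψ, ∀ l ∈ T, f ψ l ≤ d + 1 ∧ (f ψ l = d + 1 → f ψ (τ l) + 1 = d) := by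
    intro ψ l hl
    have e1 := hsum ψ l hl
    have e2 := hlow ψ _ (hτ l hl)
    omega
  obtain ⟨B, hB⟩ : ∃ B : Finset ι, ∀ l, l ∈ B ↔
      ((0 < c l ∧ ∃ ψ, f ψ l + 1 = d ∧ G ψ + ∑ l', (f ψ l' : ℝ) * (c l' : ℝ) - ν < 1) ∨ l = l₀) :=
    ⟨univ.filter fun l => (0 < c l ∧ ∃ ψ, f ψ l + 1 = d ∧
      G ψ + ∑ l', (f ψ l' : ℝ) * (c l' : ℝ) - ν < 1) ∨ l = l₀, fun l => by
        rw [mem_filter]; exact and_iff_right (mem_univ _)⟩
  have hl₀B : l₀ ∈ B := (hB _).2 (Or.inr rfl)
  have hBc : ∀ l ∈ B, 0 < c l := by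
    intro l hl
    rcases (hB l).1 hl with h | h
    · exact h.1
    · rw [h]; omega
  have hBT : ∀ l ∈ B, l ∈ T := by
    intro l hl
    by_contra h
    have := hBc l hl
    rw [h1 l h] at this
    exact lt_irrefl _ this
  have hm : ∀ l, (if l ∈ B then 1 else 0 : ℕ) ≤ c l := by
    intro l
    split_ifs with h
    · exact hBc l h
    · exact Nat.zero_le _
  have hsB : ∑ l, (if l ∈ B then 1 else 0 : ℕ) = B.card := by
    rw [Finset.sum_ite_mem, univ_inter, sum_const, smul_eq_mul, mul_one]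
  have hBpos : 0 < B.card := card_pos.2 ⟨l₀, hl₀B⟩
  have hBle : 2 * B.card ≤ T.card := by
    refine le_trans (Nat.mul_le_mul_left 2 (card_le_card ?_)) hcard
    intro l hl
    exact mem_filter.2 ⟨mem_univ _, hBc l hl⟩
  -- slopes of `m`
  have hfm : ∀ ψ, ∑ l, (f ψ l : ℝ) * (((if l ∈ B then 1 else 0 : ℕ)) : ℝ) =
      ∑ l ∈ B, (f ψ l : ℝ) := by
    intro ψ
    rw [← sum_subset (subset_univ B)]
    · refine sum_congr rfl fun l hl => ?_
      rw [if_pos hl]
      simp
    · intro l _ hl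
      rw [if_neg hl]
      simp
  -- slopes of `c`
  have hgen : ∀ (ψ : Ψ) (a : ι → ℕ), (∀ l, l ∉ T → a l = 0) →
      (∑ l, (f ψ l : ℝ) * (a l : ℝ)) = d * ∑ l, (a l : ℝ) -
        (∑ l ∈ T.filter (fun l => f ψ l + 1 = d), (a l : ℝ)) +
        ∑ l ∈ T.filter (fun l => f ψ l = d + 1), (a l : ℝ) := by
    intro ψ a ha
    have e0 : ∀ (g : ι → ℝ), (∀ l, l ∉ T → g l = 0) → ∑ l, g l = ∑ l ∈ T, g l := by
      intro g hg
      symm
      exact sum_subset (subset_univ _) fun l _ hl => hg l hl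
    rw [e0 _ (fun l hl => by rw [ha l hl]; simp), e0 (fun l => (a l : ℝ))
      (fun l hl => by rw [ha l hl]; simp), sum_filter, sum_filter, mul_sum, ← sum_sub_distrib,
      ← sum_add_distrib]
    refine sum_congr rfl fun l hl => ?_
    have e1 := hlow ψ l hl
    have e2 := (hf1 ψ l hl).1
    rcases e1 with e1 | e1
    · rw [if_pos e1, if_neg (by omega)]
      have e3 : (f ψ l : ℝ) = d - 1 := by
        have : ((f ψ l + 1 : ℕ) : ℝ) = d := by exact_mod_cast e1
        push_cast at this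
        linarith
      rw [e3]
      ring
    · rw [if_neg (by omega)]
      by_cases e3 : f ψ l = d + 1
      · rw [if_pos e3, e3]
        push_cast
        ring
      · have e4 : f ψ l = d := by omega
        rw [if_neg e3, e4]
        ring
  -- the coniveau is small
  have hSc : ∀ ψ, (∑ l, (f ψ l : ℝ) * (c l : ℝ)) = d * (∑ l, c l : ℕ) -
        (∑ l ∈ T.filter (fun l => f ψ l + 1 = d), (c l : ℝ)) +
        ∑ l ∈ T.filter (fun l => f ψ l = d + 1), (c l : ℝ) := by
    intro ψ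
    rw [hgen ψ c h1]
    push_cast
    ring
  have hM : ν + 1 ≤ d * ∑ l, c l := by
    obtain ⟨ψ, hψ⟩ := hex l₀ hl₀
    have e1 := hc ψ
    have e2 := hG1 ψ
    rw [hSc ψ] at e1
    have e3 : T.filter (fun l => f ψ l + 1 = d) = {l₀} := by
      ext l
      rw [mem_filter, mem_singleton]
      constructor
      · rintro ⟨g1, g2⟩
        exact huniq ψ l g1 l₀ hl₀ g2 hψ
      · rintro rfl
        exact ⟨hl₀, hψ⟩
    have e4 : ∑ l ∈ T.filter (fun l => f ψ l = d + 1), (c l : ℝ) = 0 := by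
      apply sum_eq_zero
      intro l hl
      obtain ⟨g1, g2⟩ := mem_filter.1 hl
      have g3 := (hf1 ψ l g1).2 g2
      have g4 : τ l = l₀ := huniq ψ _ (hτ l g1) l₀ hl₀ g3 hψ
      have g5 : l = τ l₀ := by rw [← g4, hττ l g1]
      rw [g5, h2 l₀ hl₀ (by omega)]
      simp
    rw [e3, sum_singleton, e4] at e1
    have e5 : ((max 1 w + 1 : ℕ) : ℝ) ≤ c l₀ := by exact_mod_cast hbig
    have e6 : (w : ℝ) ≤ ((max 1 w : ℕ) : ℝ) := by exact_mod_cast le_max_right 1 w
    have e7 : ((ν + 1 : ℕ) : ℝ) ≤ ((d * ∑ l, c l : ℕ) : ℝ) := by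
      push_cast
      push_cast at e1 e5 e6
      linarith
    exact_mod_cast e7
  have hM' : (1 : ℝ) ≤ d * (∑ l, c l : ℕ) - ν := by
    have : ((ν + 1 : ℕ) : ℝ) ≤ ((d * ∑ l, c l : ℕ) : ℝ) := by exact_mod_cast hM
    push_cast at this
    push_cast
    linarith
  -- the sums over `B`
  have hBsum : ∀ ψ, (∑ l ∈ B, (f ψ l : ℝ)) = d * B.card -
      ((B.filter (fun l => f ψ l + 1 = d)).card : ℝ) +
        ((B.filter (fun l => f ψ l = d + 1)).card : ℝ) := by
    intro ψ
    have key : ∀ (S : Finset ι), (S.card : ℝ) = ∑ _l ∈ S, (1 : ℝ) := by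
      intro S
      rw [sum_const, nsmul_eq_mul, mul_one]
    rw [key B, key (B.filter fun l => f ψ l + 1 = d), key (B.filter fun l => f ψ l = d + 1),
      sum_filter, sum_filter, mul_sum, ← sum_sub_distrib, ← sum_add_distrib]
    refine sum_congr rfl fun l hl => ?_
    have e1 := hlow ψ l (hBT l hl)
    have e2 := (hf1 ψ l (hBT l hl)).1
    rcases e1 with e1 | e1
    · rw [if_pos e1, if_neg (by omega)]
      have : ((f ψ l + 1 : ℕ) : ℝ) = d := by exact_mod_cast e1
      push_cast at this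
      linarith
    · rw [if_neg (by omega)]
      by_cases e3 : f ψ l = d + 1
      · rw [if_pos e3, e3]
        push_cast
        ring
      · have e4 : f ψ l = d := by omega
        rw [if_neg e3, e4]
        ring
  have hlow1 : ∀ ψ, (B.filter (fun l => f ψ l + 1 = d)).card ≤ 1 := by
    intro ψ
    rw [card_le_one]
    intro a ha b hb
    exact huniq ψ a (hBT a (mem_filter.1 ha).1) b (hBT b (mem_filter.1 hb).1)
      (mem_filter.1 ha).2 (mem_filter.1 hb).2
  have hup1 : ∀ ψ, (B.filter (fun l => f ψ l = d + 1)).card ≤ 1 := by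
    intro ψ
    rw [card_le_one]
    intro a ha b hb
    have ga := hBT a (mem_filter.1 ha).1
    have gb := hBT b (mem_filter.1 hb).1
    have g1 := huniq ψ _ (hτ a ga) _ (hτ b gb) ((hf1 ψ a ga).2 (mem_filter.1 ha).2)
      ((hf1 ψ b gb).2 (mem_filter.1 hb).2)
    rw [← hττ a ga, g1, hττ b gb]
  have hdB : 1 ≤ d * B.card := Nat.mul_pos hd hBpos
  refine ⟨fun l => if l ∈ B then 1 else 0, min ν (d * B.card - 1), hm, min_le_left _ _, ?_, ?_,
    fun ψ => ?_, fun ψ => ?_⟩
  · rw [hsB]; exact hBpos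
  · rw [hsB]
    have e1 : T.card / 2 * 1 ≤ T.card / 2 * max 1 w := Nat.mul_le_mul_left _ (le_max_left _ _)
    omega
  · rw [hfm ψ, hBsum ψ]
    have e1 : ((min ν (d * B.card - 1) : ℕ) : ℝ) ≤ ((d * B.card - 1 : ℕ) : ℝ) := by
      exact_mod_cast min_le_right _ _
    rw [Nat.cast_sub hdB] at e1
    push_cast at e1
    have e2 : ((B.filter (fun l => f ψ l + 1 = d)).card : ℝ) ≤ 1 := by exact_mod_cast hlow1 ψ
    have e3 : (0 : ℝ) ≤ ((B.filter (fun l => f ψ l = d + 1)).card : ℝ) := Nat.cast_nonneg _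
    push_cast
    linarith
  · rw [sum_sub_cast hm]
    rcases le_total ν (d * B.card - 1) with h | h
    · rw [min_eq_left h]
      have e1 := sum_mono_cast (f := f ψ) hm
      have e2 := hG0 ψ
      linarith
    rw [min_eq_right h, hfm ψ, hBsum ψ, Nat.cast_sub hdB]
    push_cast
    -- the slack
    set A : ℝ := G ψ + ∑ l', (f ψ l' : ℝ) * (c l' : ℝ) - ν with hA
    have hA0 : 0 ≤ A := by
      have := hc ψ
      rw [hA]
      linarith
    have goal : 1 - ((B.filter (fun l => f ψ l + 1 = d)).card : ℝ) +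
        ((B.filter (fun l => f ψ l = d + 1)).card : ℝ) ≤ A := by
      have e2 : ((B.filter (fun l => f ψ l = d + 1)).card : ℝ) ≤ 1 := by exact_mod_cast hup1 ψ
      by_cases hB1 : (B.filter (fun l => f ψ l + 1 = d)).Nonempty
      · obtain ⟨a, ha⟩ := hB1
        have ha1 := hBT a (mem_filter.1 ha).1
        have ha2 := (mem_filter.1 ha).2
        have e1 : (B.filter (fun l => f ψ l + 1 = d)).card = 1 :=
          le_antisymm (hlow1 ψ) (card_pos.2 ⟨a, ha⟩)
        have e3 : (B.filter (fun l => f ψ l = d + 1)).card = 0 := by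
          rw [card_eq_zero, filter_eq_empty_iff]
          intro b hb hb2
          have g0 := hBT b hb
          have g1 := (hf1 ψ b g0).2 hb2
          have g2 := huniq ψ _ (hτ b g0) a ha1 g1 ha2
          have g3 := h2 b g0 (hBc b hb)
          rw [g2] at g3
          have g4 := hBc a (mem_filter.1 ha).1
          omega
        rw [e1, e3]
        simpa using hA0
      · rw [not_nonempty_iff_eq_empty] at hB1
        have e1 : (B.filter (fun l => f ψ l + 1 = d)).card = 0 := by rw [hB1, card_empty]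
        rw [e1]
        -- there is no tight label
        have hA' : A = G ψ + (d * (∑ l, c l : ℕ) - ν) -
            (∑ l ∈ T.filter (fun l => f ψ l + 1 = d), (c l : ℝ)) +
            ∑ l ∈ T.filter (fun l => f ψ l = d + 1), (c l : ℝ) := by
          rw [hA, hSc ψ]
          ring
        by_cases hB2 : (B.filter (fun l => f ψ l = d + 1)).Nonempty
        · obtain ⟨b, hb⟩ := hB2
          have gb := hBT b (mem_filter.1 hb).1
          have gb2 := (mem_filter.1 hb).2
          have gb3 := (hf1 ψ b gb).2 gb2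
          have gb4 := hBc b (mem_filter.1 hb).1
          have s1 : ∑ l ∈ T.filter (fun l => f ψ l + 1 = d), (c l : ℝ) = 0 := by
            apply sum_eq_zero
            intro l hl
            obtain ⟨g1, g2⟩ := mem_filter.1 hl
            have g3 : l = τ b := huniq ψ l g1 _ (hτ b gb) g2 gb3
            rw [g3, h2 b gb gb4]
            simp
          have s2 : (1 : ℝ) ≤ ∑ l ∈ T.filter (fun l => f ψ l = d + 1), (c l : ℝ) := by
            have g1 : (c b : ℝ) ≤ ∑ l ∈ T.filter (fun l => f ψ l = d + 1), (c l : ℝ) :=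
              single_le_sum (f := fun l => (c l : ℝ)) (fun _ _ => Nat.cast_nonneg _)
                (mem_filter.2 ⟨gb, gb2⟩)
            have g2 : (1 : ℝ) ≤ c b := by exact_mod_cast gb4
            linarith
          rw [hA', s1]
          have := hG0 ψ
          push_cast
          push_cast at hM'
          linarith
        · rw [not_nonempty_iff_eq_empty] at hB2
          rw [hB2, card_empty]
          push_cast
          rw [sub_zero, add_zero]
          by_contra hlt
          push Not at hlt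
          have s1 : ∑ l ∈ T.filter (fun l => f ψ l + 1 = d), (c l : ℝ) = 0 := by
            apply sum_eq_zero
            intro l hl
            obtain ⟨g1, g2⟩ := mem_filter.1 hl
            by_contra hcl
            have g3 : 0 < c l := by
              rcases Nat.eq_zero_or_pos (c l) with h | h
              · rw [h] at hcl
                exact absurd Nat.cast_zero hcl
              · exact h
            have g4 : l ∈ B := (hB l).2 (Or.inl ⟨g3, ψ, g2, hlt⟩)
            have g5 : l ∈ B.filter (fun l => f ψ l + 1 = d) := mem_filter.2 ⟨g4, g2⟩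
            rw [hB1] at g5
            exact notMem_empty _ g5
          have s2 : (0 : ℝ) ≤ ∑ l ∈ T.filter (fun l => f ψ l = d + 1), (c l : ℝ) :=
            sum_nonneg fun _ _ => Nat.cast_nonneg _
          rw [hA', s1] at hlt
          have := hG0 ψ
          push_cast at hlt hM'
          linarith
    have hA2 : G ψ + (∑ l', (f ψ l' : ℝ) * (c l' : ℝ)) = A + ν := by
      rw [hA]
      ring
    linarith

end Pool.Agent.W2helper27.K3
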