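import Pool.Agent.N204.GT.Num
import Pool.Agent.W2helper27.K3.Comb

/-!
# Splitting of divisible products of Weil numbers of ordinary K3 type
-/

namespace Pool.Agent.W2helper27.K3

open Polynomial Finset IntermediateField
open Pool.Agent.R940 Pool.Agent.N204.GT

variable {K ι : Type*} [Field K] [CharZero K] {p : ℕ} [hp : Fact p.Prime] {e₁ e₂ d : ℕ}
  {lam : ι → K} {deg : ι → ℕ} [Fintype ι] {T : Finset ι} {τ : ι → ι}

/-- The numbers `lam l`, `l ∈ T`, are the eigenvalues of a part of ordinary K3 type, for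
`q = p ^ e`, and the other numbers have constant slopes. -/
structure IsK3Family {K ι : Type*} [Field K] [CharZero K] (p : ℕ) [Fact p.Prime] (e d : ℕ)
    (lam : ι → K) (T : Finset ι) (τ : ι → ι) : Prop where
  one_le : 1 ≤ d
  int : ∀ l, IsIntegral ℤ (lam l)
  mem : ∀ l ∈ T, τ l ∈ T
  invol : ∀ l ∈ T, τ (τ l) = l
  dual : ∀ l ∈ T, lam l * lam (τ l) = ((p : K) ^ e) ^ (2 * d)
  low : ∀ l ∈ T, ∀ y : PadicAlgCl p, aeval y (minpoly ℚ (lam l)) = 0 →
    ‖y‖ = ((p : ℝ) ^ e) ^ (-((d : ℤ) - 1)) ∨ ‖y‖ ≤ ((p : ℝ) ^ e) ^ (-(d : ℤ))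
  ex : ∀ l ∈ T, ∃ y : PadicAlgCl p, aeval y (minpoly ℚ (lam l)) = 0 ∧
    ‖y‖ = ((p : ℝ) ^ e) ^ (-((d : ℤ) - 1))
  uniq : ∀ (E : IntermediateField ℚ K) (ψ : E →ₐ[ℚ] PadicAlgCl p), ∀ l ∈ T, ∀ l' ∈ T,
    ∀ x x' : E, (x : K) = lam l → (x' : K) = lam l' →
    ‖ψ x‖ = ((p : ℝ) ^ e) ^ (-((d : ℤ) - 1)) → ‖ψ x'‖ = ((p : ℝ) ^ e) ^ (-((d : ℤ) - 1)) → l = l'
  const : ∀ l, l ∉ T → ∃ j : ℕ, ∀ y : PadicAlgCl p, aeval y (minpoly ℚ (lam l)) = 0 →
    ‖y‖ = ((p : ℝ) ^ e) ^ (-(j : ℤ))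

lemma norm_q (n : ℕ) : ‖((p : PadicAlgCl p) ^ e₁) ^ n‖ = ((p : ℝ) ^ e₁) ^ (-(n : ℤ)) := by
  rw [norm_natCast_p, zpow_neg, zpow_natCast]

/-- **Splitting of divisible products of ordinary K3 type.** -/
theorem cone_k3 [DecidableEq ι] {D : ℕ} (hD1 : D = 1) (he₁ : 0 < e₁) (he₂ : 0 < e₂)
    (h : IsWeilFamily p e₁ D lam deg) (hk : IsK3Family p e₁ d lam T τ) {w : ℕ} {μ : K} {t : ℕ}
    (ht : 0 < t) (hμ : IsIntegral ℤ μ) (hμ0 : μ ≠ 0)
    (hμ' : IsIntegral ℤ (((p : K) ^ (e₂ * t)) ^ w / μ)) {c : ι → ℕ} {ν : ℕ}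
    (hc : CN p e₁ e₂ lam μ t c ν) (hN : max 2 (T.card / 2 * max 1 w) < ∑ l, c l) :
    ∃ (m : ι → ℕ) (v : ℕ), (∀ l, m l ≤ c l) ∧ v ≤ ν ∧ 0 < ∑ l, m l ∧ ∑ l, m l < ∑ l, c l ∧
      CN p e₁ e₂ lam 1 1 m v ∧ CN p e₁ e₂ lam μ t (c - m) (ν - v) := by
  classical
  have hD : 0 < D := by rw [hD1]; exact one_pos
  obtain ⟨B, hB⟩ : ∃ B : ℕ, ∀ l, D * deg l ≤ B :=
    ⟨∑ l, D * deg l, fun l => Finset.single_le_sum (f := fun l => D * deg l)
      (fun _ _ => Nat.zero_le _) (Finset.mem_univ l)⟩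
  -- the field
  let lam' : Option ι → K := fun o => o.elim μ lam
  have hint' : ∀ o, IsIntegral ℤ (lam' o) := by
    rintro (_ | l)
    · exact hμ
    · exact h.int l
  let E := EF lam'
  have hfd : FiniteDimensional ℚ (EF lam') := by
    apply finiteDimensional_adjoin
    rintro _ ⟨o, rfl⟩
    exact (hint' o).tower_top
  have halg : Algebra.IsAlgebraic ℚ (EF lam') := inferInstance
  let x : ι → E := fun l => el lam' (some l)
  let y : E := el lam' none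
  have hxK : ∀ l, algebraMap E K (x l) = lam l := fun l => rfl
  have hyK : algebraMap E K y = μ := rfl
  have hl0 : ∀ l, lam l ≠ 0 := by
    intro l h0
    exact el_ne_zero he₁ h l (Subtype.ext h0)
  have hx0 : ∀ l, x l ≠ 0 := fun l h0 => hl0 l (by rw [← hxK, h0, map_zero])
  have hy0 : y ≠ 0 := fun h0 => hμ0 (by rw [← hyK, h0, map_zero])
  have hp0 : (p : K) ≠ 0 := Nat.cast_ne_zero.2 hp.out.ne_zero
  have hpE : (p : E) ≠ 0 := Nat.cast_ne_zero.2 hp.out.ne_zero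
  have hdown : ∀ z : E, IsIntegral ℤ (algebraMap E K z) ↔ IsIntegral ℤ z := fun z =>
    isIntegral_algebraMap_iff (algebraMap E K).injective
  have hxi : ∀ l, IsIntegral ℤ (x l) := fun l => (hdown _).1 (h.int l)
  have hyi : IsIntegral ℤ y := (hdown _).1 hμ
  have hyi' : IsIntegral ℤ (((p : E) ^ (e₂ * t)) ^ w / y) := by
    rw [← hdown, map_div₀, map_pow, map_pow, map_natCast]
    exact hμ'
  have hxi' : ∀ l, IsIntegral ℤ (((p : E) ^ e₁) ^ deg l / x l) := by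
    intro l
    rw [← hdown, map_div₀, map_pow, map_pow, map_natCast]
    have h1 := (co_int he₁ h l).map ((algebraMap (EF lam) K).toIntAlgHom)
    have h2 : (algebraMap (EF lam) K).toIntAlgHom (((p : EF lam) ^ e₁) ^ deg l / el lam l) =
        ((p : K) ^ e₁) ^ deg l / lam l := by
      change algebraMap (EF lam) K _ = _
      rw [map_div₀, map_pow, map_pow, map_natCast]
      rfl
    rw [h2] at h1
    exact h1
  -- the slopes
  have hsl : ∀ (ψ : E →ₐ[ℚ] PadicAlgCl p) (l : ι), ∃ m : ℕ, m ≤ B ∧ D * vl ψ (x l) = e₁ * m := by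
    intro ψ l
    obtain ⟨m, hm⟩ := h.slope l (ψ (x l)) (aeval_emb ψ (x l))
    have h1 : D * vl ψ (x l) = e₁ * m := by
      have h2 := congrArg Real.log hm
      rw [Real.log_pow, Real.log_zpow, Real.log_pow] at h2
      rw [vl, ← mul_div_assoc, div_eq_iff log_p_pos.ne']
      push_cast at h2
      linarith
    have he₁' : (0 : ℝ) < e₁ := by exact_mod_cast he₁
    have hm0 : 0 ≤ m := by
      have h2 : 0 ≤ vl ψ (x l) := (vl_nonneg ψ (hx0 l)).2 ((int_iff (x l)).1 (hxi l) p ψ)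
      have h3 : (0 : ℝ) ≤ e₁ * m := by
        rw [← h1]
        exact mul_nonneg (Nat.cast_nonneg _) h2
      have h4 : (0 : ℝ) ≤ m := by
        by_contra hcon
        exact absurd h3 (not_le.2 (mul_neg_of_pos_of_neg he₁' (not_le.1 hcon)))
      exact_mod_cast h4
    obtain ⟨m', rfl⟩ := Int.eq_ofNat_of_zero_le hm0
    refine ⟨m', ?_, by rw [h1]; push_cast; rfl⟩
    have hne : ((p : E) ^ e₁) ^ deg l / x l ≠ 0 :=
      div_ne_zero (pow_ne_zero _ (pow_ne_zero _ hpE)) (hx0 l)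
    have h2 : 0 ≤ vl ψ (((p : E) ^ e₁) ^ deg l / x l) :=
      (vl_nonneg ψ hne).2 ((int_iff _).1 (hxi' l) p ψ)
    rw [vl_div ψ (pow_ne_zero _ (pow_ne_zero _ hpE)) (hx0 l), vl_pow, vl_pow, vl_p] at h2
    have h3 : (e₁ : ℝ) * m' ≤ e₁ * (D * deg l) := by
      have h4 : (e₁ : ℝ) * m' = D * vl ψ (x l) := by rw [h1]; push_cast; rfl
      rw [h4]
      have h5 : (0 : ℝ) ≤ D * (deg l * (e₁ * 1) - vl ψ (x l)) := mul_nonneg (Nat.cast_nonneg _) h2
      linarith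
    have h4 : (m' : ℝ) ≤ D * deg l := le_of_mul_le_mul_left h3 he₁'
    have h5 : m' ≤ D * deg l := by exact_mod_cast h4
    exact h5.trans (hB l)
  choose f hfB hf using hsl
  -- the divisibility
  have hval : ∀ (ψ : E →ₐ[ℚ] PadicAlgCl p) (y' : E) (_ : y' ≠ 0) (t' : ℕ) (a : ι → ℕ) (u : ℕ),
      D * vl ψ ((y' ^ e₁ * (∏ l, x l ^ a l) ^ (e₂ * t')) / (p : E) ^ (e₁ * e₂ * t' * u)) =
        e₁ * (D * vl ψ y' + e₂ * t' * (∑ l, (f ψ l : ℝ) * a l - D * u)) := by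
    intro ψ y' hy' t' a u
    have hP : (∏ l, x l ^ a l) ≠ 0 := Finset.prod_ne_zero_iff.2 fun l _ => pow_ne_zero _ (hx0 l)
    rw [vl_div ψ (mul_ne_zero (pow_ne_zero _ hy') (pow_ne_zero _ hP)) (pow_ne_zero _ hpE),
      vl_mul ψ (pow_ne_zero _ hy') (pow_ne_zero _ hP), vl_pow, vl_pow, vl_pow, vl_p,
      vl_prod ψ _ _ fun l _ => pow_ne_zero _ (hx0 l)]
    simp only [vl_pow]
    have h1 : D * ∑ l, (a l : ℝ) * vl ψ (x l) = e₁ * ∑ l, (f ψ l : ℝ) * a l := by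
      rw [Finset.mul_sum, Finset.mul_sum]
      refine Finset.sum_congr rfl fun l _ => ?_
      have := hf ψ l
      calc (D : ℝ) * (a l * vl ψ (x l)) = a l * (D * vl ψ (x l)) := by ring
        _ = _ := by rw [this]; ring
    push_cast
    calc _ = D * (e₁ * vl ψ y') + e₂ * t' * (D * ∑ l, (a l : ℝ) * vl ψ (x l)) -
        D * (e₁ * e₂ * t' * u) := by ring
      _ = _ := by rw [h1]; ring
  have hD' : (0 : ℝ) < D := by exact_mod_cast hD
  have he₁' : (0 : ℝ) < e₁ := by exact_mod_cast he₁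
  have he₂' : (0 : ℝ) < e₂ := by exact_mod_cast he₂
  have ht' : (0 : ℝ) < t := by exact_mod_cast ht
  -- integrality in terms of the slopes
  have hiff : ∀ (y' : E) (_ : y' ≠ 0) (_ : IsIntegral ℤ y') (t' : ℕ) (a : ι → ℕ) (u : ℕ),
      IsIntegral ℤ ((y' ^ e₁ * (∏ l, x l ^ a l) ^ (e₂ * t')) / (p : E) ^ (e₁ * e₂ * t' * u)) ↔
        ∀ ψ : E →ₐ[ℚ] PadicAlgCl p,
          0 ≤ D * vl ψ y' + e₂ * t' * (∑ l, (f ψ l : ℝ) * a l - D * u) := by
    intro y' hy' hyi' t' a u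
    have hP : (∏ l, x l ^ a l) ≠ 0 := Finset.prod_ne_zero_iff.2 fun l _ => pow_ne_zero _ (hx0 l)
    have hne : (y' ^ e₁ * (∏ l, x l ^ a l) ^ (e₂ * t')) / (p : E) ^ (e₁ * e₂ * t' * u) ≠ 0 :=
      div_ne_zero (mul_ne_zero (pow_ne_zero _ hy') (pow_ne_zero _ hP)) (pow_ne_zero _ hpE)
    have key : ∀ ψ : E →ₐ[ℚ] PadicAlgCl p,
        (‖ψ ((y' ^ e₁ * (∏ l, x l ^ a l) ^ (e₂ * t')) / (p : E) ^ (e₁ * e₂ * t' * u))‖ ≤ 1 ↔
          0 ≤ D * vl ψ y' + e₂ * t' * (∑ l, (f ψ l : ℝ) * a l - D * u)) := by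
      intro ψ
      rw [← vl_nonneg ψ hne, ← mul_nonneg_iff_of_pos_left hD', hval ψ y' hy',
        mul_nonneg_iff_of_pos_left he₁']
    rw [int_iff]
    constructor
    · intro h1 ψ
      exact (key ψ).1 (h1 p ψ)
    · intro h1 l _ ψ
      by_cases hlp : l = p
      · subst hlp
        exact (key ψ).2 (h1 ψ)
      · have hpn : ‖(p : PadicAlgCl l)‖ = 1 := by
          have h1 : ((p : ℚ_[l]) : PadicAlgCl l) = (p : PadicAlgCl l) :=
            map_natCast (algebraMap ℚ_[l] (PadicAlgCl l)) p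
          rw [← h1, PadicAlgCl.norm_extends]
          have h2 : ¬ ‖(p : ℚ_[l])‖ < 1 := by
            have h3 := (Padic.norm_intCast_lt_one_iff (p := l) (k := (p : ℤ)))
            rw [Int.cast_natCast] at h3
            rw [h3]
            intro h4
            have hl : Fact l.Prime := inferInstance
            exact hlp ((Nat.prime_dvd_prime_iff_eq hl.out hp.out).1 (by exact_mod_cast h4))
          have h5 := Padic.norm_int_le_one (p := l) (p : ℤ)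
          rw [Int.cast_natCast] at h5
          exact le_antisymm h5 (not_lt.1 h2)
        rw [map_div₀, map_mul, map_pow, map_pow, map_pow, map_natCast, map_prod, norm_div, norm_mul,
          norm_pow, norm_pow, norm_pow, hpn, one_pow, div_one, norm_prod]
        refine mul_le_one₀ (pow_le_one₀ (norm_nonneg _) ((int_iff y').1 hyi' l ψ))
          (pow_nonneg (Finset.prod_nonneg fun _ _ => norm_nonneg _) _)
          (pow_le_one₀ (Finset.prod_nonneg fun _ _ => norm_nonneg _) ?_)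
        refine Finset.prod_le_one (fun _ _ => norm_nonneg _) fun i _ => ?_
        rw [map_pow, norm_pow]
        exact pow_le_one₀ (norm_nonneg _) ((int_iff (x i)).1 (hxi i) l ψ)
  have hCN : ∀ (y' : E) (t' : ℕ) (a : ι → ℕ) (u : ℕ),
      CN p e₁ e₂ lam (algebraMap E K y') t' a u ↔
      IsIntegral ℤ ((y' ^ e₁ * (∏ l, x l ^ a l) ^ (e₂ * t')) / (p : E) ^ (e₁ * e₂ * t' * u)) := by
    intro y' t' a u
    rw [← hdown, CN, map_div₀, map_mul, map_pow, map_pow, map_pow, map_prod, map_natCast]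
    simp only [map_pow, hxK]
  -- the slack
  let G : (E →ₐ[ℚ] PadicAlgCl p) → ℝ := fun ψ => D * vl ψ y / (e₂ * t)
  have hG0 : ∀ ψ, 0 ≤ G ψ := fun ψ => div_nonneg (mul_nonneg hD'.le
    ((vl_nonneg ψ hy0).2 ((int_iff y).1 hyi p ψ))) (mul_nonneg he₂'.le ht'.le)
  have hG1 : ∀ ψ, G ψ ≤ D * w := by
    intro ψ
    have hne : ((p : E) ^ (e₂ * t)) ^ w / y ≠ 0 :=
      div_ne_zero (pow_ne_zero _ (pow_ne_zero _ hpE)) hy0
    have h2 : 0 ≤ vl ψ (((p : E) ^ (e₂ * t)) ^ w / y) :=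
      (vl_nonneg ψ hne).2 ((int_iff _).1 hyi' p ψ)
    rw [vl_div ψ (pow_ne_zero _ (pow_ne_zero _ hpE)) hy0, vl_pow, vl_pow, vl_p] at h2
    push_cast at h2
    rw [div_le_iff₀ (mul_pos he₂' ht')]
    have h3 : (D : ℝ) * vl ψ y ≤ D * (w * (e₂ * t * 1)) :=
      mul_le_mul_of_nonneg_left (by linarith) hD'.le
    linarith
  have hpos : ∀ (ψ : E →ₐ[ℚ] PadicAlgCl p) (s : ℝ),
      0 ≤ D * vl ψ y + e₂ * t * s ↔ 0 ≤ G ψ + s := by
    intro ψ s
    have h1 : D * vl ψ y + e₂ * t * s = e₂ * t * (G ψ + s) := by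
      simp only [G]
      field_simp
    rw [h1, mul_nonneg_iff_of_pos_left (mul_pos he₂' ht')]
  have hmain : ∀ ψ, D * (ν : ℝ) ≤ G ψ + ∑ l, (f ψ l : ℝ) * c l := by
    intro ψ
    have h1 := (hiff y hy0 hyi t c ν).1 ((hCN y t c ν).1 (by rw [hyK]; exact hc)) ψ
    rw [hpos] at h1
    linarith
  -- ordinary K3 type
  have he₁' : (0 : ℝ) < e₁ := by exact_mod_cast he₁
  have hlogq : Real.log ((p : ℝ) ^ e₁) = e₁ * Real.log p := Real.log_pow _ _
  have hlp : 0 < Real.log p := log_p_pos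
  have hfe : ∀ (ψ : E →ₐ[ℚ] PadicAlgCl p) (l : ι),
      ‖ψ (x l)‖ = ((p : ℝ) ^ e₁) ^ (-(f ψ l : ℤ)) := by
    intro ψ l
    have h1 := hf ψ l
    rw [hD1, Nat.cast_one, one_mul, vl, div_eq_iff hlp.ne'] at h1
    have h0 : 0 < ‖ψ (x l)‖ := norm_pos_iff.2 ((map_ne_zero ψ).2 (hx0 l))
    apply Real.log_injOn_pos (Set.mem_Ioi.2 h0)
      (Set.mem_Ioi.2 (zpow_pos (zero_lt_one.trans (pe_pos he₁)) _))
    rw [Real.log_zpow, hlogq]
    push_cast
    linarith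
  have hmin : ∀ (ψ : E →ₐ[ℚ] PadicAlgCl p) (l : ι),
      aeval (ψ (x l)) (minpoly ℚ (lam l)) = 0 := fun ψ l => aeval_emb ψ (x l)
  have hq1 : 1 < (p : ℝ) ^ e₁ := pe_pos he₁
  have hinj : ∀ a b : ℤ, ((p : ℝ) ^ e₁) ^ a = ((p : ℝ) ^ e₁) ^ b → a = b := fun a b hab =>
    zpow_right_injective₀ (zero_lt_one.trans hq1) hq1.ne' hab
  have hlow1 : ∀ (ψ : E →ₐ[ℚ] PadicAlgCl p) (l : ι), f ψ l + 1 = d →
      ‖ψ (x l)‖ = ((p : ℝ) ^ e₁) ^ (-((d : ℤ) - 1)) := by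
    intro ψ l hl
    rw [hfe ψ l]
    congr 1
    omega
  obtain ⟨m, v, hm1, hm2, hm3, hm4, hm5, hm6⟩ := k3_split (w := w) hk.one_le (f := f) hk.mem
    hk.invol (by
      intro ψ l hl
      have h1 : x l * x (τ l) = ((p : E) ^ e₁) ^ (2 * d) := by
        apply (algebraMap E K).injective
        rw [map_mul, map_pow, map_pow, map_natCast, hxK, hxK]
        exact hk.dual l hl
      have h2 := congrArg (fun z => ‖ψ z‖) h1
      simp only [map_mul, norm_mul, map_pow, map_natCast] at h2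
      rw [norm_q, hfe ψ l, hfe ψ (τ l),
        ← zpow_add₀ (zero_lt_one.trans hq1).ne'] at h2
      have h3 := hinj _ _ h2
      omega) (by
      intro ψ l hl
      rcases hk.low l hl _ (hmin ψ l) with h1 | h1
      · left
        rw [hfe ψ l] at h1
        have := hinj _ _ h1
        omega
      · right
        rw [hfe ψ l, zpow_le_zpow_iff_right₀ hq1] at h1
        omega) (by
      intro l hl
      obtain ⟨y', hy', hy''⟩ := hk.ex l hl
      have h1 : minpoly ℚ (lam l) = minpoly ℚ (x l) := minpoly_coe (x l)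
      rw [h1] at hy'
      have h2 := Algebra.IsAlgebraic.range_eval_eq_rootSet_minpoly (PadicAlgCl p) (x l) (F := ℚ)
      have h3 : y' ∈ (minpoly ℚ (x l)).rootSet (PadicAlgCl p) := by
        rw [mem_rootSet]
        exact ⟨minpoly.ne_zero (Algebra.IsAlgebraic.isAlgebraic (x l)).isIntegral, hy'⟩
      rw [← h2] at h3
      obtain ⟨ψ, hψ⟩ := h3
      refine ⟨ψ, ?_⟩
      rw [← hψ] at hy''
      have h4 : ‖ψ (x l)‖ = ((p : ℝ) ^ e₁) ^ (-((d : ℤ) - 1)) := hy''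
      rw [hfe ψ l] at h4
      have h5 := hinj _ _ h4
      have := hk.one_le
      omega) (by
      intro ψ l hl l' hl' h1 h2
      exact hk.uniq E ψ l hl l' hl' (x l) (x l') (hxK l) (hxK l') (hlow1 ψ l h1) (hlow1 ψ l' h2)) (by
      intro l hl
      obtain ⟨j, hj⟩ := hk.const l hl
      refine ⟨j, fun ψ => ?_⟩
      have h1 := hj _ (hmin ψ l)
      rw [hfe ψ l] at h1
      have := hinj _ _ h1
      omega) hG0 (fun ψ => by
      have h1 := hG1 ψ
      rwa [hD1, Nat.cast_one, one_mul] at h1) (c := c) (ν := ν) (fun ψ => by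
      have h1 := hmain ψ
      rwa [hD1, Nat.cast_one, one_mul] at h1) hN
  refine ⟨m, v, hm1, hm2, hm3, hm4, ?_, ?_⟩
  · have h1 : CN p e₁ e₂ lam (algebraMap E K 1) 1 m v := by
      rw [hCN, hiff 1 one_ne_zero isIntegral_one]
      intro ψ
      have h2 : vl ψ (1 : E) = 0 := by rw [vl, map_one, norm_one, Real.log_one, neg_zero, zero_div]
      rw [h2, mul_zero, zero_add, hD1, Nat.cast_one, one_mul]
      exact mul_nonneg (mul_nonneg he₂'.le zero_le_one) (sub_nonneg.2 (hm5 ψ))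
    rwa [map_one] at h1
  · have h1 : CN p e₁ e₂ lam (algebraMap E K y) t (c - m) (ν - v) := by
      rw [hCN, hiff y hy0 hyi]
      intro ψ
      rw [hpos, Nat.cast_sub hm2, hD1, Nat.cast_one, one_mul]
      have h2 := hm6 ψ
      linarith
    rwa [hyK] at h1

end Pool.Agent.W2helper27.K3
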