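import Pool.Agent.R940.Main
import Pool.Agent.W2helper27.K3.Defs
import Pool.Agent.W2helper27.K3.Num

/-!
# The eigenvalues of Frobenius on a variety of ordinary K3 type
-/

set_option linter.unusedVariables false
set_option linter.unusedSectionVars false

open CategoryTheory AlgebraicGeometry CategoryTheory.Limits

universe u v

namespace Pool.Agent.W2helper27.K3

open Pool.Agent.H914 Pool.Agent.H447 Pool.Agent.W534 Pool.Agent.Y163 VarClass Obj WeilCohomology
  Module Polynomial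
open Pool.Agent.R940 Pool.Agent.N204.GT
open IntermediateField (adjoin)

variable {k : Type u} [Field k] {𝒱 : VarClass k} {ops : CycleOps 𝒱}
  {W : WeilCohomology.{u, v} ops} {X Y Z U S : 𝒱.Obj} {p : ℕ} [hp : Fact p.Prime]
  {Φ : FrobSystem W p} {σ : W.K →+* ℂ} {ι : Type v} {B : HBasis W X ι} {lam : ι → W.K}

lemma charpoly_eq_map {i : ℕ} {P : ℤ[X]} (hP : frobPoly Φ σ X 1 i = P.map (Int.castRingHom ℂ)) :
    (frobOn Φ X 1 i).charpoly = P.map (Int.castRingHom W.K) := by
  apply Polynomial.map_injective σ σ.injective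
  rw [← frobPoly_eq, hP, Polynomial.map_map]
  congr 1
  exact RingHom.ext_int _ _

/-- Each eigenvalue is the eigenvalue of an element of the basis. -/
lemma exists_label [Finite ι] (hB : IsEig Φ B lam) {i : ℕ} {μ : W.K}
    (hμ : (frobOn Φ X 1 i).charpoly.IsRoot μ) : ∃ l, B.deg l = i ∧ lam l = μ := by
  obtain ⟨v, hv1, hv2⟩ :=
    ((Module.End.hasEigenvalue_iff_isRoot_charpoly _ _).2 hμ).exists_hasEigenvector
  have hv3 : frobOn Φ X 1 i v = μ • v := Module.End.mem_eigenspace_iff.1 hv1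
  have hv4 : frob Φ X 1 (v : W.H X) = μ • (v : W.H X) := congrArg Subtype.val hv3
  have hv5 : (v : W.H X) ∈ (frob Φ X 1).maxGenEigenspace μ := by
    refine (Module.End.mem_maxGenEigenspace _ _ _).2 ⟨1, ?_⟩
    rw [pow_one, LinearMap.sub_apply, sub_eq_zero]
    exact hv4
  have hv0 : (v : W.H X) ≠ 0 := fun h => hv2 (Subtype.ext h)
  obtain ⟨l, hl⟩ : ∃ l, B.b.repr (v : W.H X) l ≠ 0 := by
    by_contra hcon
    push Not at hcon
    apply hv0
    have : B.b.repr (v : W.H X) = 0 := Finsupp.ext hcon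
    exact (LinearEquiv.map_eq_zero_iff _).1 this
  refine ⟨l, ?_, ?_⟩
  · by_contra hne
    exact hl (repr_zero (W.isInternal X).submodule_iSupIndep B.b B.deg B.mem v.2 hne)
  · by_contra hne
    exact hl (repr_zero (Module.End.independent_maxGenEigenspace (frob Φ X 1)) B.b lam hB hv5 hne)

/-- Two elements of the basis with the same eigenvalue. -/
lemma two_le_mult (hB : IsEig Φ B lam) {i : ℕ} {l l' : ι} (hne : l ≠ l') (hl : B.deg l = i)
    (hl' : B.deg l' = i) (heq : lam l = lam l') :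
    2 ≤ (frobOn Φ X 1 i).charpoly.rootMultiplicity (lam l) := by
  subst hl
  rw [← LinearMap.finrank_maxGenEigenspace_eq]
  have key : ∀ (l' : ι) (h : B.b l' ∈ W.gr X (B.deg l)), lam l' = lam l →
      (⟨B.b l', h⟩ : W.gr X (B.deg l)) ∈ (frobOn Φ X 1 (B.deg l)).maxGenEigenspace (lam l) := by
    intro l' h he
    obtain ⟨n, hn⟩ := (Module.End.mem_maxGenEigenspace _ _ _).1 (hB l')
    refine (Module.End.mem_maxGenEigenspace _ _ _).2 ⟨n, ?_⟩
    apply Subtype.ext
    have key : ∀ (n : ℕ) (w : W.gr X (B.deg l)),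
        ((((frobOn Φ X 1 (B.deg l) - lam l • 1) ^ n) w : W.gr X (B.deg l)) : W.H X) =
          ((frob Φ X 1 - lam l • 1) ^ n) (w : W.H X) := by
      intro n
      induction n with
      | zero => intro w; rfl
      | succ n ih =>
        intro w
        rw [pow_succ, pow_succ, Module.End.mul_apply, Module.End.mul_apply, ih]
        rfl
    rw [key, ← he]
    exact hn
  have hdeg : ∀ a : Fin 2, B.deg (![l, l'] a) = B.deg l ∧ lam (![l, l'] a) = lam l := by
    intro a
    fin_cases a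
    · exact ⟨rfl, rfl⟩
    · exact ⟨hl', heq.symm⟩
  have hinj : Function.Injective ![l, l'] := by
    intro a b hab
    fin_cases a <;> fin_cases b
    · rfl
    · exact absurd hab hne
    · exact absurd hab hne.symm
    · rfl
  have h5 : LinearIndependent W.K (B.b ∘ ![l, l']) := B.b.linearIndependent.comp _ hinj
  have hmem : ∀ a : Fin 2, B.b (![l, l'] a) ∈ W.gr X (B.deg l) := fun a => by
    rw [← (hdeg a).1]; exact B.mem _
  let v : Fin 2 → (frobOn Φ X 1 (B.deg l)).maxGenEigenspace (lam l) := fun a =>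
    ⟨⟨B.b (![l, l'] a), hmem a⟩, key _ (hmem a) (hdeg a).2⟩
  have hli : LinearIndependent W.K v :=
    LinearIndependent.of_comp ((W.gr X (B.deg l)).subtype ∘ₗ
      ((frobOn Φ X 1 (B.deg l)).maxGenEigenspace (lam l)).subtype) h5
  have h6 := hli.fintype_card_le_finrank
  rwa [Fintype.card_fin] at h6

/-- Conjugates and multiplication by an integer. -/
lemma aeval_scale {K A : Type*} [Field K] [CharZero K] [Field A] [CharZero A] {x : K} {n : ℕ}
    (hn : n ≠ 0) {y : A} (hy : aeval y (minpoly ℚ (x / (n : K))) = 0) :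
    aeval ((n : A) * y) (minpoly ℚ x) = 0 := by
  have hn' : (n : K) ≠ 0 := Nat.cast_ne_zero.2 hn
  have h1 : aeval (x / (n : K)) ((minpoly ℚ x).comp (C (n : ℚ) * X)) = 0 := by
    rw [aeval_comp, map_mul, aeval_C, aeval_X, map_natCast, mul_div_cancel₀ x hn', minpoly.aeval]
  obtain ⟨Q, hQ⟩ := minpoly.dvd ℚ _ h1
  have h2 : aeval y ((minpoly ℚ x).comp (C (n : ℚ) * X)) = 0 := by
    rw [hQ, map_mul, hy, zero_mul]
  rwa [aeval_comp, map_mul, aeval_C, aeval_X, map_natCast] at h2

lemma norm_pe (e n : ℕ) : ‖(((p : PadicAlgCl p) ^ e) ^ n)‖ = ((p : ℝ) ^ e) ^ (-(n : ℤ)) := by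
  rw [norm_natCast_p, zpow_neg, zpow_natCast]

lemma norm_nat_ne {l : ℕ} [hl : Fact l.Prime] (hlp : l ≠ p) : ‖(p : PadicAlgCl l)‖ = 1 := by
  have h1 : ((p : ℚ_[l]) : PadicAlgCl l) = (p : PadicAlgCl l) :=
    map_natCast (algebraMap ℚ_[l] (PadicAlgCl l)) p
  rw [← h1, PadicAlgCl.norm_extends]
  have h2 : ¬ ‖(p : ℚ_[l])‖ < 1 := by
    have h3 := (Padic.norm_intCast_lt_one_iff (p := l) (k := (p : ℤ)))
    rw [Int.cast_natCast] at h3
    rw [h3]
    intro h4
    exact hlp ((Nat.prime_dvd_prime_iff_eq hl.out hp.out).1 (by exact_mod_cast h4))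
  have h5 := Padic.norm_int_le_one (p := l) (p : ℤ)
  rw [Int.cast_natCast] at h5
  exact le_antisymm h5 (not_lt.1 h2)

/-- If all the `p`-adic conjugates of `x` are at most `q ^ (-d)` and all the complex conjugates have
the absolute value `q ^ d`, then `x` is the product of `q ^ d` and a root of unity. -/
lemma unity_of_slopes {K : Type*} [Field K] [CharZero K] {x : K} (hx : IsIntegral ℤ x)
    (hx0 : x ≠ 0) {e d : ℕ}
    (hp1 : ∀ y : PadicAlgCl p, aeval y (minpoly ℚ x) = 0 → ‖y‖ ≤ ((p : ℝ) ^ e) ^ (-(d : ℤ)))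
    (hC : ∀ y : ℂ, aeval y (minpoly ℚ x) = 0 → ‖y‖ ^ 2 = ((p : ℝ) ^ e) ^ (2 * d)) :
    ∃ m : ℕ, 0 < m ∧ x ^ m = (((p : K) ^ e) ^ d) ^ m := by
  have hp0 : (p : K) ≠ 0 := Nat.cast_ne_zero.2 hp.out.ne_zero
  have hn : ((p ^ e) ^ d : ℕ) ≠ 0 := pow_ne_zero _ (pow_ne_zero _ hp.out.ne_zero)
  have hcast : (((p ^ e) ^ d : ℕ) : K) = ((p : K) ^ e) ^ d := by push_cast; rfl
  have hq0 : ((p : K) ^ e) ^ d ≠ 0 := pow_ne_zero _ (pow_ne_zero _ hp0)
  have hxa : IsAlgebraic ℚ x := hx.tower_top.isAlgebraic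
  have hqa : IsAlgebraic ℚ (((p : K) ^ e) ^ d) :=
    ((isAlgebraic_natCast (R := ℚ) (A := K) p).pow e).pow d
  obtain ⟨m, hm, h1⟩ := root_of_unity (x := x / ((p : K) ^ e) ^ d) (by
      rw [div_eq_mul_inv]
      exact hxa.mul hqa.inv) (div_ne_zero hx0 hq0) (by
      intro l _ y hy
      rw [← hcast] at hy
      have h2 := aeval_scale hn hy
      by_cases hlp : l = p
      · subst hlp
        have h3 := hp1 _ h2
        rw [norm_mul] at h3
        have h4 : ‖(((l ^ e) ^ d : ℕ) : PadicAlgCl l)‖ = ((l : ℝ) ^ e) ^ (-(d : ℤ)) := by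
          push_cast
          exact norm_pe e d
        rw [h4] at h3
        have h5 : (0 : ℝ) < ((l : ℝ) ^ e) ^ (-(d : ℤ)) :=
          zpow_pos (pow_pos (by exact_mod_cast hp.out.pos) _) _
        exact (mul_le_iff_le_one_right h5).1 h3
      · have h3 : IsIntegral ℤ ((((p ^ e) ^ d : ℕ) : PadicAlgCl l) * y) := by
          refine ⟨minpoly ℤ x, minpoly.monic hx, ?_⟩
          have h6 := minpoly.isIntegrallyClosed_eq_field_fractions' ℚ hx
          rw [h6, aeval_map_algebraMap] at h2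
          exact h2
        have h4 := padic_integral h3
        rw [norm_mul] at h4
        have h5 : ‖(((p ^ e) ^ d : ℕ) : PadicAlgCl l)‖ = 1 := by
          push_cast
          rw [norm_pow, norm_pow, norm_nat_ne hlp, one_pow, one_pow]
        rwa [h5, one_mul] at h4) (by
      intro y hy
      rw [← hcast] at hy
      have h2 := hC _ (aeval_scale hn hy)
      rw [norm_mul, mul_pow] at h2
      have h3 : ‖(((p ^ e) ^ d : ℕ) : ℂ)‖ ^ 2 = ((p : ℝ) ^ e) ^ (2 * d) := by
        rw [Complex.norm_natCast]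
        push_cast
        rw [← pow_mul, mul_comm d 2]
      rw [h3] at h2
      have h4 : (0 : ℝ) < ((p : ℝ) ^ e) ^ (2 * d) :=
        pow_pos (pow_pos (by exact_mod_cast hp.out.pos) _) _
      have h5 : ‖y‖ ^ 2 = 1 := by
        have := mul_left_cancel₀ h4.ne' (h2.trans (mul_one _).symm)
        exact this
      exact (pow_eq_one_iff_of_nonneg (norm_nonneg _) two_ne_zero).1 h5 |>.le)
  refine ⟨m, hm, ?_⟩
  rw [div_pow, div_eq_one_iff_eq (pow_ne_zero _ hq0)] at h1
  exact h1

/-- The absolute value of the conjugates of the product of `q ^ d` and a root of unity. -/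
lemma norm_of_unity {K : Type*} [Field K] [CharZero K] {x : K} {e d m : ℕ} (hm : 0 < m)
    (hx : x ^ m = (((p : K) ^ e) ^ d) ^ m) {y : PadicAlgCl p} (hy : aeval y (minpoly ℚ x) = 0) :
    ‖y‖ = ((p : ℝ) ^ e) ^ (-(d : ℤ)) := by
  have h1 : aeval x ((X : ℚ[X]) ^ m - C ((((p : ℚ) ^ e) ^ d) ^ m)) = 0 := by
    rw [map_sub, map_pow, aeval_X, aeval_C, map_pow, map_pow, map_pow, map_natCast, hx, sub_self]
  obtain ⟨Q, hQ⟩ := minpoly.dvd ℚ _ h1
  have h2 : aeval y ((X : ℚ[X]) ^ m - C ((((p : ℚ) ^ e) ^ d) ^ m)) = 0 := by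
    rw [hQ, map_mul, hy, zero_mul]
  rw [map_sub, map_pow, aeval_X, aeval_C, map_pow, map_pow, map_pow, map_natCast, sub_eq_zero] at h2
  have h3 := congrArg norm h2
  rw [norm_pow, norm_pow, norm_pe] at h3
  exact (pow_left_inj₀ (norm_nonneg _) (zpow_nonneg (pow_nonneg (Nat.cast_nonneg _) _) _)
    hm.ne').1 h3

/-- **The eigenvalues of Frobenius on a variety of ordinary K3 type.** -/
theorem k3Family [Fintype ι] [DecidableEq ι] (hB : IsEig Φ B lam) (hRH : RiemannHyp Φ σ X)
    (hint : HasIntegralPolys Φ σ X) {d : ℕ} (hK : IsOrdinaryK3Type Φ σ X d) :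
    ∃ (T : Finset ι) (τ : ι → ι), IsK3Family p (Φ.e X) d lam T τ ∧
      T.card ≤ transcendentalRank Φ σ X d ∧ IsWeilFamily p (Φ.e X) 1 lam B.deg := by
  classical
  have he : 0 < Φ.e X := Φ.e_pos X
  have hq1 : 1 < (p : ℝ) ^ Φ.e X := pe_pos he
  have hqpos : 0 < (p : ℝ) ^ Φ.e X := zero_lt_one.trans hq1
  have hW0 := weilFamily hB hRH hint (slopeDenominator hRH hint)
  obtain ⟨P, hP⟩ := hint (2 * d)
  have hPK := charpoly_eq_map (Φ := Φ) (σ := σ) (X := X) hP
  have hPm : P.Monic := by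
    refine monic_of_injective (f := Int.castRingHom W.K) Int.cast_injective ?_
    rw [← hPK]
    exact LinearMap.charpoly_monic _
  obtain ⟨z, hz1, hz2, hz3⟩ := hK.middle P hP
  have hp0 : (p : W.K) ≠ 0 := Nat.cast_ne_zero.2 hp.out.ne_zero
  set q : W.K := (p : W.K) ^ Φ.e X with hq
  have hq0 : q ≠ 0 := pow_ne_zero _ hp0
  -- the labels of degree `2 d`
  have hroot : ∀ l, B.deg l = 2 * d → aeval (lam l) P = 0 := by
    intro l hl
    have h1 := root_charpoly hB l
    rw [hl, hPK, IsRoot.def, Polynomial.eval_map] at h1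
    rw [aeval_def]
    exact h1
  have hl0 : ∀ l, lam l ≠ 0 := by
    intro l h0
    exact el_ne_zero he hW0 l (Subtype.ext h0)
  let T : Finset ι := Finset.univ.filter fun l =>
    B.deg l = 2 * d ∧ ∀ m : ℕ, 0 < m → lam l ^ m ≠ (q ^ d) ^ m
  have hT : ∀ l, l ∈ T ↔ (B.deg l = 2 * d ∧ ∀ m : ℕ, 0 < m → lam l ^ m ≠ (q ^ d) ^ m) := fun l => by
    rw [Finset.mem_filter]
    exact and_iff_right (Finset.mem_univ _)
  have hTr : ∀ l ∈ T, ∀ {A : Type} [Field A] [CharZero A] (y : A),
      aeval y (minpoly ℚ (lam l)) = 0 → aeval y P = 0 := fun l hl {A} _ _ y hy =>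
    aeval_of_minpoly (hroot l ((hT l).1 hl).1) hy
  have hlow : ∀ l ∈ T, ∀ y : PadicAlgCl p, aeval y (minpoly ℚ (lam l)) = 0 →
      ‖y‖ = ((p : ℝ) ^ Φ.e X) ^ (-((d : ℤ) - 1)) ∨ ‖y‖ ≤ ((p : ℝ) ^ Φ.e X) ^ (-(d : ℤ)) := by
    intro l hl y hy
    by_cases h : y = z
    · left; rw [h, hz1]
    · right; exact hz3 y (hTr l hl y hy) h
  have hlt : ((p : ℝ) ^ Φ.e X) ^ (-(d : ℤ)) < ((p : ℝ) ^ Φ.e X) ^ (-((d : ℤ) - 1)) :=
    zpow_lt_zpow_right₀ hq1 (by omega)
  have hex : ∀ l ∈ T, ∃ y : PadicAlgCl p, aeval y (minpoly ℚ (lam l)) = 0 ∧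
      ‖y‖ = ((p : ℝ) ^ Φ.e X) ^ (-((d : ℤ) - 1)) := by
    intro l hl
    by_contra hcon
    push Not at hcon
    obtain ⟨m, hm, h1⟩ := unity_of_slopes (hW0.int l) (hl0 l) (d := d) (e := Φ.e X) (fun y hy => by
      rcases hlow l hl y hy with h | h
      · exact absurd h (hcon y hy)
      · exact h) (fun y hy => by
      have h1 := hW0.arch l y hy
      rw [((hT l).1 hl).1] at h1
      exact h1)
    exact ((hT l).1 hl).2 m hm h1
  have huniq : ∀ (E : IntermediateField ℚ W.K) (ψ : E →ₐ[ℚ] PadicAlgCl p), ∀ l ∈ T, ∀ l' ∈ T,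
      ∀ x x' : E, (x : W.K) = lam l → (x' : W.K) = lam l' →
      ‖ψ x‖ = ((p : ℝ) ^ Φ.e X) ^ (-((d : ℤ) - 1)) →
      ‖ψ x'‖ = ((p : ℝ) ^ Φ.e X) ^ (-((d : ℤ) - 1)) → l = l' := by
    intro E ψ l hl l' hl' x x' hx hx' h1 h2
    have key : ∀ (l : ι) (_ : l ∈ T) (x : E), (x : W.K) = lam l →
        ‖ψ x‖ = ((p : ℝ) ^ Φ.e X) ^ (-((d : ℤ) - 1)) → ψ x = z := by
      intro l hl x hx h1
      by_contra hne
      have h3 : aeval (ψ x) P = 0 := by
        have h4 := hroot l ((hT l).1 hl).1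
        rw [← hx] at h4
        have h5 : aeval x P = 0 := by
          have h6 : aeval ((algebraMap E W.K) x) P = (algebraMap E W.K) (aeval x P) :=
            aeval_algebraMap_apply _ _ _
          have h7 : (algebraMap E W.K) (aeval x P) = 0 := by rw [← h6]; exact h4
          exact (map_eq_zero _).1 h7
        have h6 : aeval (ψ x) P = ψ (aeval x P) := aeval_algHom_apply (ψ.restrictScalars ℤ) x P
        rw [h6, h5, map_zero]
      have h4 := hz3 _ h3 hne
      rw [h1] at h4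
      exact absurd h4 (not_le.2 hlt)
    have e1 := key l hl x hx h1
    have e2 := key l' hl' x' hx' h2
    have e3 : x = x' := ψ.injective (e1.trans e2.symm)
    have e4 : lam l = lam l' := by rw [← hx, ← hx', e3]
    by_contra hne
    have e5 := two_le_mult hB hne ((hT l).1 hl).1 ((hT l').1 hl').1 e4
    have e6 : (P.map (Int.castRingHom W.K)).rootMultiplicity (lam l) =
        (P.map (Int.castRingHom E)).rootMultiplicity x := by
      have h3 := eq_rootMultiplicity_map (p := P.map (Int.castRingHom E))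
        (f := algebraMap E W.K) (algebraMap E W.K).injective x
      rw [h3, Polynomial.map_map, ← hx]
      congr 1
    have e7 : (P.map (Int.castRingHom (PadicAlgCl p))).rootMultiplicity (ψ x) =
        (P.map (Int.castRingHom E)).rootMultiplicity x := by
      have h3 := eq_rootMultiplicity_map (p := P.map (Int.castRingHom E))
        (f := (ψ : E →+* PadicAlgCl p)) ψ.injective x
      rw [h3, Polynomial.map_map]
      congr 1
      congr 1
      exact RingHom.ext_int _ _
    rw [hPK, e6, ← e7, e1, hz2] at e5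
    omega
  -- the field generated by the eigenvalues
  have hinj : ∀ l ∈ T, ∀ l' ∈ T, lam l = lam l' → l = l' := by
    intro l hl l' hl' heq
    obtain ⟨y, hy1, hy2⟩ := hex l hl
    obtain ⟨ψ, hψ⟩ := exists_emb hW0 (el lam l) (y := y) (by
      have h1 := minpoly_coe (el lam l)
      rw [← h1]
      exact hy1)
    have h1 : el lam l' = el lam l := Subtype.ext heq.symm
    exact huniq (EF lam) ψ l hl l' hl' (el lam l) (el lam l') rfl rfl (by rw [hψ, hy2])
      (by rw [h1, hψ, hy2])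
  -- the dual eigenvalue
  have hdual : ∀ l, ∃ l', l ∈ T → l' ∈ T ∧ lam l * lam l' = q ^ (2 * d) := by
    intro l
    by_cases hl : l ∈ T
    swap
    · exact ⟨l, fun h => absurd h hl⟩
    have hdeg := ((hT l).1 hl).1
    have halg := isAlg_EF hW0
    let φ : EF lam →ₐ[ℚ] ℂ := IsAlgClosed.lift
    have h1 := hW0.arch l (φ (el lam l)) (aeval_emb φ (el lam l))
    have h0 : φ (el lam l) ≠ 0 := (map_ne_zero φ).2 (el_ne_zero he hW0 l)
    have h2 : φ (((p : EF lam) ^ Φ.e X) ^ B.deg l / el lam l) =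
        (starRingEnd ℂ) (φ (el lam l)) := by
      rw [map_div₀, map_pow, map_pow, map_natCast, div_eq_iff h0, mul_comm, Complex.mul_conj,
        Complex.normSq_eq_norm_sq, h1]
      push_cast
      rfl
    have h3 : aeval (φ (el lam l)) P = 0 := hTr l hl _ (aeval_emb φ (el lam l))
    have h4 : aeval ((starRingEnd ℂ) (φ (el lam l))) P = 0 := by
      have h5 : aeval ((starRingEnd ℂ) (φ (el lam l))) P =
          (starRingEnd ℂ) (aeval (φ (el lam l)) P) := by
        rw [aeval_def, aeval_def, Polynomial.hom_eval₂]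
        congr 1
        exact RingHom.ext_int _ _
      rw [h5, h3, map_zero]
    have h5 : aeval (((p : EF lam) ^ Φ.e X) ^ B.deg l / el lam l) P = 0 := by
      have h6 : aeval (φ (((p : EF lam) ^ Φ.e X) ^ B.deg l / el lam l)) P =
          φ (aeval (((p : EF lam) ^ Φ.e X) ^ B.deg l / el lam l) P) :=
        aeval_algHom_apply (φ.restrictScalars ℤ) _ P
      rw [h2, h4] at h6
      exact (map_eq_zero φ).1 h6.symm
    have h6 : aeval (q ^ (2 * d) / lam l) P = 0 := by
      have h7 : q ^ (2 * d) / lam l =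
          algebraMap (EF lam) W.K (((p : EF lam) ^ Φ.e X) ^ B.deg l / el lam l) := by
        rw [map_div₀, map_pow, map_pow, map_natCast, hdeg]
        rfl
      rw [h7, aeval_algebraMap_apply, h5, map_zero]
    obtain ⟨l', hl'1, hl'2⟩ := exists_label hB (i := 2 * d) (μ := q ^ (2 * d) / lam l) (by
      rw [hPK, IsRoot.def, Polynomial.eval_map]
      rw [aeval_def] at h6
      exact h6)
    refine ⟨l', fun _ => ⟨(hT l').2 ⟨hl'1, fun m hm h7 => ?_⟩, ?_⟩⟩
    · apply ((hT l).1 hl).2 m hm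
      rw [hl'2, div_pow, div_eq_iff (pow_ne_zero _ (hl0 l))] at h7
      have h8 : (q ^ (2 * d)) ^ m = (q ^ d) ^ m * (q ^ d) ^ m := by ring
      rw [h8] at h7
      exact (mul_left_cancel₀ (pow_ne_zero _ (pow_ne_zero _ hq0)) h7).symm
    · rw [hl'2, mul_div_cancel₀ _ (hl0 l)]
  choose τ hτ using hdual
  have hinvol : ∀ l ∈ T, τ (τ l) = l := by
    intro l hl
    obtain ⟨h1, h2⟩ := hτ l hl
    obtain ⟨h3, h4⟩ := hτ (τ l) h1
    apply hinj _ h3 _ hl
    have h5 : lam (τ l) * lam (τ (τ l)) = lam (τ l) * lam l := by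
      rw [h4, mul_comm (lam (τ l)), h2]
    exact mul_left_cancel₀ (hl0 _) h5
  have hconst : ∀ l, l ∉ T → ∃ j : ℕ, ∀ y : PadicAlgCl p, aeval y (minpoly ℚ (lam l)) = 0 →
      ‖y‖ = ((p : ℝ) ^ Φ.e X) ^ (-(j : ℤ)) := by
    intro l hl
    rcases Nat.even_or_odd (B.deg l) with hev | hodd
    · obtain ⟨j, hj⟩ := hev
      have hj2 : B.deg l = 2 * j := by omega
      by_cases hjd : j = d
      · subst hjd
        have h1 : ∃ m : ℕ, 0 < m ∧ lam l ^ m = (q ^ j) ^ m := by
          by_contra hcon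
          push Not at hcon
          exact hl ((hT l).2 ⟨hj2, hcon⟩)
        obtain ⟨m, hm, h2⟩ := h1
        exact ⟨j, fun y hy => norm_of_unity hm h2 hy⟩
      · obtain ⟨Q, hQ1, hQ2, hQ3⟩ := exists_poly hB hint l
        refine ⟨j, fun y hy => hK.other j hjd Q (by rw [← hj2]; exact hQ2) y
          (aeval_of_minpoly hQ3 hy)⟩
    · exfalso
      have h1 := root_charpoly hB l
      have h2 := hK.odd _ hodd
      rw [frobPoly_eq] at h2
      have h3 : (frobOn Φ X 1 (B.deg l)).charpoly = 1 := by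
        apply Polynomial.map_injective σ σ.injective
        rw [h2, Polynomial.map_one]
      rw [h3, IsRoot.def, eval_one] at h1
      exact one_ne_zero h1
  have hk3 : IsK3Family p (Φ.e X) d lam T τ :=
    { one_le := hK.one_le
      int := hW0.int
      mem := fun l hl => (hτ l hl).1
      invol := hinvol
      dual := fun l hl => (hτ l hl).2
      low := hlow
      ex := hex
      uniq := huniq
      const := hconst }
  refine ⟨T, τ, hk3, ?_, ?_⟩
  · -- the number of labels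
    have hfin : {z : ℂ | (frobPoly Φ σ X 1 (2 * d)).IsRoot z ∧
        ∀ m : ℕ, 0 < m → z ^ m ≠ (((p : ℂ) ^ Φ.e X) ^ d) ^ m}.Finite := by
      refine Set.Finite.subset ((frobPoly Φ σ X 1 (2 * d)).roots.toFinset.finite_toSet) ?_
      rintro y ⟨hy, -⟩
      have hne : frobPoly Φ σ X 1 (2 * d) ≠ 0 := by
        rw [hP]
        exact (hPm.map _).ne_zero
      rw [Finset.mem_coe, Multiset.mem_toFinset, mem_roots hne]
      exact hy
    have h1 : ((T.image fun l => σ (lam l) : Finset ℂ) : Set ℂ) ⊆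
        {z : ℂ | (frobPoly Φ σ X 1 (2 * d)).IsRoot z ∧
          ∀ m : ℕ, 0 < m → z ^ m ≠ (((p : ℂ) ^ Φ.e X) ^ d) ^ m} := by
      intro y hy
      obtain ⟨l, hl, rfl⟩ := Finset.mem_image.1 hy
      refine ⟨?_, fun m hm h2 => ?_⟩
      · have h3 := root_charpoly hB l
        rw [((hT l).1 hl).1] at h3
        rw [frobPoly_eq]
        exact h3.map
      · apply ((hT l).1 hl).2 m hm
        apply σ.injective
        rw [map_pow, h2, map_pow, map_pow, hq, map_pow, map_natCast]
    have h2 := Set.ncard_le_ncard h1 hfin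
    rw [Set.ncard_coe_finset, Finset.card_image_of_injOn] at h2
    · exact h2
    · intro a ha b hb hab
      exact hinj a ha b hb (σ.injective hab)
  · -- the slopes are integers
    refine ⟨hW0.int, hW0.arch, fun l y hy => ?_⟩
    rw [pow_one]
    by_cases hl : l ∈ T
    · rcases hlow l hl y hy with h | h
      · exact ⟨_, h⟩
      · obtain ⟨ψ, hψ⟩ := exists_emb hW0 (el lam l) (y := y) (by
          have h1 := minpoly_coe (el lam l)
          rw [← h1]
          exact hy)
        obtain ⟨h1, h2⟩ := hτ l hl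
        have h3 : el lam l * el lam (τ l) = ((p : EF lam) ^ Φ.e X) ^ (2 * d) := by
          apply (algebraMap (EF lam) W.K).injective
          rw [map_mul, map_pow, map_pow, map_natCast]
          exact h2
        have h4 := congrArg (fun z => ‖ψ z‖) h3
        simp only [map_mul, norm_mul, map_pow, map_natCast] at h4
        rw [norm_pe, hψ] at h4
        have h5 := hlow (τ l) h1 (ψ (el lam (τ l))) (aeval_emb ψ (el lam (τ l)))
        rcases h5 with h5 | h5
        · refine ⟨d + 1, ?_⟩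
          rw [h5] at h4
          have h6 : ((p : ℝ) ^ Φ.e X) ^ (-((d : ℤ) - 1)) ≠ 0 := zpow_ne_zero _ hqpos.ne'
          apply mul_right_cancel₀ h6
          rw [h4, ← zpow_add₀ hqpos.ne']
          congr 1
          push_cast
          ring
        · refine ⟨d, le_antisymm h ?_⟩
          have h6 : ((p : ℝ) ^ Φ.e X) ^ (-((2 * d : ℕ) : ℤ)) =
              ((p : ℝ) ^ Φ.e X) ^ (-(d : ℤ)) * ((p : ℝ) ^ Φ.e X) ^ (-(d : ℤ)) := by
            rw [← zpow_add₀ hqpos.ne']
            congr 1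
            push_cast
            ring
          rw [h6] at h4
          have h7 : 0 < ((p : ℝ) ^ Φ.e X) ^ (-(d : ℤ)) := zpow_pos hqpos _
          by_contra hcon
          push Not at hcon
          have h8 : ‖y‖ * ‖ψ (el lam (τ l))‖ <
              ((p : ℝ) ^ Φ.e X) ^ (-(d : ℤ)) * ((p : ℝ) ^ Φ.e X) ^ (-(d : ℤ)) :=
            lt_of_le_of_lt (mul_le_mul_of_nonneg_left h5 (norm_nonneg _))
              (mul_lt_mul_of_pos_right hcon h7)
          exact absurd h4 h8.ne
    · obtain ⟨j, hj⟩ := hconst l hl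
      exact ⟨j, hj y hy⟩

end Pool.Agent.W2helper27.K3
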