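import Pool.Agent.N204.GT.Trans
import Pool.Agent.W2helper27.K3.Fam

/-!
# Splitting on powers of varieties of ordinary K3 type
-/

set_option linter.unusedVariables false
set_option linter.unusedSectionVars false

open CategoryTheory AlgebraicGeometry CategoryTheory.Limits TensorProduct

universe u v

namespace Pool.Agent.W2helper27.K3

open Pool.Agent.H914 Pool.Agent.H447 Pool.Agent.W534 Pool.Agent.Y163 VarClass Obj WeilCohomology
  Module Polynomial
open Pool.Agent.R940 hiding mem_of_baseChange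
open Pool.Agent.N204.GT
open Pool.Agent.R908 (baseFrob base_map_tmul base_map_eq base_induction_mod mem_baseChange_iff
  coef coef_baseChange)
open Pool.Agent.N204.GH (cv push_cv ext_mem_cv bij_of_perm cv_anti)

variable {k : Type u} [Field k] {𝒱 : VarClass k} {ops : CycleOps 𝒱}
  {W : WeilCohomology.{u, v} ops} {X Y Z U S : 𝒱.Obj} {p : ℕ}
  [hp : Fact p.Prime] {Φ : FrobSystem W p} {σ : W.K →+* ℂ}

section

variable {ι : Type v} [Fintype ι] [DecidableEq ι] {B : HBasis W X ι} {lam : ι → W.K}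

/-- **Splitting.** -/
theorem splitK3 [IsAlgClosed W.K] (hRH : RiemannHyp Φ σ Z) (hint : HasIntegralPolys Φ σ Z)
    (hB : IsEig Φ B lam) (hF : IsWeilFamily p (Φ.e X) 1 lam B.deg) {d : ℕ} {T : Finset ι}
    {τ : ι → ι} (hk : IsK3Family p (Φ.e X) d lam T τ) {n : ℕ}
    (hn : max 2 (T.card / 2 * max 1 (2 * Z.dim)) < n + 1) {i ν : ℕ}
    {c : W.H (Z.prod (pw X n))} (hc : Cn Φ (Z.prod (pw X n)) i ν c) :
    c ∈ Submodule.span W.K {x | IsExtC Φ Z X n i ν x} := by
  obtain ⟨s, α₀, hs, hα₀, hE, hgr⟩ := hc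
  obtain ⟨κ, hfin, BZ, μ, hBZ⟩ := exists_ebasis Φ Z
  obtain ⟨A, α, β, hA, hα, hβ, hAα, hAβ, h1, h2⟩ := frob_prZ Φ Z X n
  obtain ⟨bs, hbs⟩ := exists_prodBasis B n BZ.b
  have hfin' : Finite (κ × (Fin (n + 1) → ι)) := inferInstance
  have hft : Fintype κ := Fintype.ofFinite κ
  rw [← bs.sum_repr c]
  refine Submodule.sum_mem _ ?_
  rintro ⟨m, I⟩ _
  by_cases h0 : bs.repr c (m, I) = 0
  · rw [h0, zero_smul]; exact Submodule.zero_mem _
  refine Submodule.smul_mem _ _ ?_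
  rw [hbs]
  have hJ : BZ.deg m + ∑ l, B.deg l * cnt I l = i := by
    by_contra hne
    apply h0
    refine repr_zero (W.isInternal (Z.prod (pw X n))).submodule_iSupIndep bs
      (fun x => BZ.deg x.1 + ∑ l, B.deg l * cnt x.2 l) (fun x => ?_) hgr hne
    rw [show x = (x.1, x.2) from rfl, hbs]
    exact zm_gr B n (BZ.mem _) _
  have hEq : μ m ^ (α * s) * (∏ j, lam (I j)) ^ (β * (1 * s)) = α₀ ^ A := by
    by_contra hne
    apply h0
    have h3 : c ∈ (frob Φ (Z.prod (pw X n)) (A * (1 * s))).maxGenEigenspace (α₀ ^ A) := by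
      have h4 := gen_mono _ _ A hE
      rwa [← frob_mul_eq, show s * A = A * (1 * s) by ring] at h4
    refine repr_zero (Module.End.independent_maxGenEigenspace
      (frob Φ (Z.prod (pw X n)) (A * (1 * s)))) bs
      (fun x => μ x.1 ^ (α * s) * (∏ j, lam (x.2 j)) ^ (β * (1 * s))) (fun x => ?_) h3 hne
    rw [show x = (x.1, x.2) from rfl, hbs]
    exact zm_E (g := true) (show IsEgB Φ true B lam from hB) h1 h2 (hBZ x.1) s x.2
  have hCN : CN p (Φ.e X) (Φ.e Z) lam (μ m) 1 (cnt I) ν := by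
    refine IsIntegral.of_pow (Nat.mul_pos hα hs) ?_
    have e1 : ((μ m ^ Φ.e X * (∏ l, lam l ^ cnt I l) ^ (Φ.e Z * 1)) /
        (p : W.K) ^ (Φ.e X * Φ.e Z * 1 * ν)) ^ (α * s) =
        (α₀ / (p : W.K) ^ (Φ.e (Z.prod (pw X n)) * s * ν)) ^ (A * Φ.e X) := by
      have e2 : (μ m ^ Φ.e X * (∏ l, lam l ^ cnt I l) ^ (Φ.e Z * 1)) ^ (α * s) =
          (μ m ^ (α * s) * (∏ j, lam (I j)) ^ (β * (1 * s))) ^ Φ.e X := by
        rw [prod_cnt, mul_pow, mul_pow, ← pow_mul, ← pow_mul, ← pow_mul, ← pow_mul]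
        congr 2
        · ring
        · calc Φ.e Z * 1 * (α * s) = (α * Φ.e Z) * s := by ring
            _ = (β * Φ.e X) * s := by rw [← hAα, hAβ]
            _ = _ := by ring
      rw [div_pow, div_pow, e2, hEq, ← pow_mul, ← pow_mul, ← pow_mul]
      congr 2
      calc Φ.e X * Φ.e Z * 1 * ν * (α * s) = (α * Φ.e Z) * (Φ.e X * ν * s) := by ring
        _ = (A * Φ.e (Z.prod (pw X n))) * (Φ.e X * ν * s) := by rw [hAα]
        _ = _ := by ring
    rw [e1]
    exact IsIntegral.pow hα₀ _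
  have hz0 : BZ.b m ≠ 0 := BZ.b.ne_zero m
  obtain ⟨hi, hi'⟩ := int_of_gen hRH hint one_pos (BZ.mem m) hz0 (hBZ m)
  have hN : max 2 (T.card / 2 * max 1 (BZ.deg m)) < ∑ l, cnt I l := by
    rw [sum_cnt_one]
    refine lt_of_le_of_lt (max_le_max le_rfl (Nat.mul_le_mul_left _ (max_le_max le_rfl ?_))) hn
    exact deg_le BZ m
  obtain ⟨m', v, hm1, hm2, hm3, hm4, hm5, hm6⟩ := cone_k3 rfl (Φ.e_pos X) (Φ.e_pos Z) hF hk
    (w := BZ.deg m) one_pos hi (gen_ne_zero (hBZ m) hz0) hi' hCN hN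
  obtain ⟨b, a, e', e, hperm', g1, g2⟩ := exists_subword I m' hm1
  have hperm : (List.ofFn e ++ List.ofFn e').Perm (List.finRange (n + 1)) :=
    List.perm_append_comm.trans hperm'
  have ha : ∑ l, m' l = b := by rw [← g1, sum_cnt_one]
  have hlen : a + b = n + 1 := by
    have := hperm.length_eq
    simpa using this
  rw [sum_cnt_one] at hm4
  obtain ⟨a, rfl⟩ : ∃ r, a = r + 1 := ⟨a - 1, by omega⟩
  obtain ⟨b, rfl⟩ : ∃ r, b = r + 1 := ⟨b - 1, by omega⟩
  obtain ⟨ε, hε⟩ := mon_split B I e e' hperm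
  rw [← g1] at hm5
  rw [← g2] at hm6
  have hv := zm_Cn hB (n := a) one_pos (hBZ m) (BZ.mem m) hm6
  have hw := mon_Cn hB (b := b) (Φ.e_pos Z) hm5
  have hdeg : (BZ.deg m + ∑ l, B.deg l * cnt (I ∘ e) l) + ∑ l, B.deg l * cnt (I ∘ e') l = i := by
    rw [← hJ, add_assoc, ← Finset.sum_add_distrib]
    congr 1
    refine Finset.sum_congr rfl fun l _ => ?_
    rw [← Nat.mul_add, g1, g2, Pi.sub_apply, Nat.sub_add_cancel (hm1 l)]
  have hprod : zm B n (BZ.b m) I = ε • (W.map (projZ Z X e) (zm B a (BZ.b m) (I ∘ e)) *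
      W.map (snd Z (pw X n)) (W.map (proj X e') (mon B b (I ∘ e')))) := by
    have hmap : W.map (projZ Z X e) (zm B a (BZ.b m) (I ∘ e)) =
        W.map (fst Z (pw X n)) (BZ.b m) * W.map (snd Z (pw X n))
          (W.map (proj X e) (mon B a (I ∘ e))) := by
      rw [zm, map_mul, ← W.map_comp, ← W.map_comp, projZ, Obj.lift_fst, Obj.lift_snd, ← W.map_comp]
    rw [hmap, zm, hε, ← proj_eq, ← proj_eq, map_smul, mul_smul_comm, map_mul, mul_assoc]
  rw [hprod]
  refine Submodule.smul_mem _ _ (Submodule.subset_span ⟨a, b, e, e', _, _, ν - v, v, _, _, hperm,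
    hdeg, Nat.sub_add_cancel hm2, hv, hw, rfl⟩)

end

/-- The number of factors, for a given number of labels. -/
theorem splitN3 [IsAlgClosed W.K] (hRHX : RiemannHyp Φ σ X) (hRHZ : RiemannHyp Φ σ Z)
    (hX : HasIntegralPolys Φ σ X) (hZ : HasIntegralPolys Φ σ Z) {d : ℕ}
    (hK : IsOrdinaryK3Type Φ σ X d) {n : ℕ} (hn : k3Power Φ σ Z X d < n + 1) {i ν : ℕ}
    {c : W.H (Z.prod (pw X n))} (hc : Cn Φ (Z.prod (pw X n)) i ν c) :
    c ∈ Submodule.span W.K {x | IsExtC Φ Z X n i ν x} := by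
  classical
  obtain ⟨ι, hfin, B, lam, hB⟩ := exists_ebasis Φ X
  have hft : Fintype ι := Fintype.ofFinite ι
  obtain ⟨T, τ, h1, h2, h3⟩ := k3Family hB hRHX hX hK
  refine splitK3 hRHZ hZ hB h3 h1 (lt_of_le_of_lt ?_ hn) hc
  exact max_le_max le_rfl (Nat.mul_le_mul_right _ (Nat.div_le_div_right h2))

/-- **Reduction of the generalized Tate conjecture.** -/
theorem GC_red3 [IsAlgClosed W.K] (hRHX : RiemannHyp Φ σ X) (hRHZ : RiemannHyp Φ σ Z)
    (hX : HasIntegralPolys Φ σ X) (hZ : HasIntegralPolys Φ σ Z) {E : X.Cycles} (hE : X.IsCyc 1 E)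
    (hbig : Big ops X E) {F : Z.Cycles} (hF : Z.IsCyc 1 F) (hbigZ : Big ops Z F)
    {d : ℕ} (hK : IsOrdinaryK3Type Φ σ X d)
    (h : GC Φ (Z.prod (pw X (k3Power Φ σ Z X d - 1)))) (n : ℕ) :
    GC Φ (Z.prod (pw X n)) := by
  induction n using Nat.strong_induction_on with
  | _ n ih =>
  rcases Nat.lt_or_ge (k3Power Φ σ Z X d) (n + 1) with hlt | hge
  · intro i j c hc
    have h1 := splitN3 hRHX hRHZ hX hZ hK hlt hc
    refine (Submodule.span_le.2 ?_) h1
    rintro _ ⟨a, b, e, e', i', i'', c', c'', v, w, g1, g2, g3, g4, g5, rfl⟩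
    have hab : a + 1 + (b + 1) = n + 1 := by
      have := g1.length_eq
      rwa [List.length_append, List.length_ofFn, List.length_ofFn, List.length_finRange] at this
    have hv : v ∈ cv W c' _ := ih a (by omega) i' c' v g4
    have hw : w ∈ cv W c'' _ := (ih b (by omega)).of_dom (dom_snd _ hF hbigZ) i'' c'' w g5
    rw [← g3]
    exact ext_mem_cv (W := W) (bij_of_perm g1) hv hw
  · exact GC.down hE hbig (by omega) h

variable {L : Type v} [Field L] [Algebra W.K L]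

/-- **Splitting over the field of the coefficients.** -/
theorem splitL3 [IsAlgClosed L] {σ' : L →+* ℂ}
    (hRHX : RiemannHyp (baseFrob Φ L) σ' X) (hRHZ : RiemannHyp (baseFrob Φ L) σ' Z)
    (hX : HasIntegralPolys (baseFrob Φ L) σ' X) (hZ : HasIntegralPolys (baseFrob Φ L) σ' Z)
    {d : ℕ} (hK : IsOrdinaryK3Type (baseFrob Φ L) σ' X d) {n : ℕ}
    (hn : k3Power (baseFrob Φ L) σ' Z X d < n + 1) {i ν : ℕ}
    {V : Submodule W.K (W.H (Z.prod (pw X n)))} (hV : Eff L Φ i ν V) :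
    V ≤ Submodule.span W.K {x | ExtL L Φ Z X n i ν x} := by
  intro x hx
  have hclosed : IsAlgClosed (baseW W L).K := inferInstanceAs (IsAlgClosed L)
  have h1 := up_Cn (L := L) hV hx
  have h2 : ∀ y : (baseW W L).H (Z.prod (pw X n)), Cn (baseFrob Φ L) _ i ν y →
      (show L ⊗[W.K] W.H (Z.prod (pw X n)) from y) ∈
        (Submodule.span W.K {x | ExtL L Φ Z X n i ν x}).baseChange L := by
    intro y hy
    have h3 := splitN3 hRHX hRHZ hX hZ hK hn hy
    have h4 : (spE (baseFrob Φ L) Z X n i ν : Submodule L (L ⊗[W.K] W.H (Z.prod (pw X n)))) ≤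
        (Submodule.span W.K {x | ExtL L Φ Z X n i ν x}).baseChange L := by
      refine Submodule.span_le.2 ?_
      rintro _ ⟨a, b, e, e', i', i'', c', c'', v, w, g1, g2, g3, g4, g5, rfl⟩
      obtain ⟨V', hV', hv⟩ := down_Cn g4
      obtain ⟨V'', hV'', hw⟩ := down_Cn g5
      have h5 := base_mul2 (W := W) (L := L) (projZ Z X e) (snd Z (pw X n) ≫ proj X e')
        (G := Submodule.span W.K {x | ExtL L Φ Z X n i ν x}) (fun v' hv' w' hw' =>
          Submodule.subset_span ⟨a, b, e, e', i', i'', c', c'', V', V'', v', w', g1, g2, g3, hV',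
            hV'', hv', hw', by rw [W.map_comp (snd Z (pw X n)) (proj X e')]⟩) hv hw
      rw [(baseW W L).map_comp (snd Z (pw X n)) (proj X e')] at h5
      exact h5
    exact h4 h3
  have h5 : (spC (baseFrob Φ L) (Z.prod (pw X n)) i ν :
      Submodule L (L ⊗[W.K] W.H (Z.prod (pw X n)))) ≤
      (Submodule.span W.K {x | ExtL L Φ Z X n i ν x}).baseChange L :=
    Submodule.span_le.2 fun y hy => h2 y hy
  exact Pool.Agent.R940.mem_of_baseChange (h5 h1)

section

variable {σ' : L →+* ℂ} (hσ : σ'.comp (algebraMap W.K L) = σ)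

include hσ

lemma k3_base {d : ℕ} (h : IsOrdinaryK3Type Φ σ X d) :
    IsOrdinaryK3Type (baseFrob Φ L) σ' X d := by
  refine ⟨h.one_le, fun i hi => ?_, fun j hj P hP => ?_, fun P hP => ?_⟩
  · rw [frobPoly_base hσ]
    exact h.odd i hi
  · rw [frobPoly_base hσ] at hP
    exact h.other j hj P hP
  · rw [frobPoly_base hσ] at hP
    exact h.middle P hP

lemma rank_base (Y : 𝒱.Obj) (d : ℕ) :
    transcendentalRank (baseFrob Φ L) σ' Y d = transcendentalRank Φ σ Y d := by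
  have h1 := frobPoly_base (Φ := Φ) hσ Y 1 (2 * d)
  unfold transcendentalRank
  rw [h1]
  rfl

lemma power_base (Z X : 𝒱.Obj) (d : ℕ) :
    k3Power (baseFrob Φ L) σ' Z X d = k3Power Φ σ Z X d := by
  unfold k3Power
  rw [rank_base hσ]

end

/-- **Reduction of the generalized Tate conjecture.** -/
theorem gtc_red3 [IsAlgClosed L] [Algebra.IsAlgebraic W.K L]
    (hRHX : RiemannHyp Φ σ X) (hRHZ : RiemannHyp Φ σ Z)
    (hX : HasIntegralPolys Φ σ X) (hZ : HasIntegralPolys Φ σ Z) {E : X.Cycles} (hE : X.IsCyc 1 E)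
    (hbig : Big ops X E) {F : Z.Cycles} (hF : Z.IsCyc 1 F) (hbigZ : Big ops Z F)
    {d : ℕ} (hK : IsOrdinaryK3Type Φ σ X d)
    (h : GTCL L Φ (Z.prod (pw X (k3Power Φ σ Z X d - 1)))) (n : ℕ) :
    GTCL L Φ (Z.prod (pw X n)) := by
  obtain ⟨σ', hσ⟩ := exists_ext (L := L) σ
  have hclosed : IsAlgClosed (baseW W L).K := inferInstanceAs (IsAlgClosed L)
  rw [gtc_iff] at h ⊢
  refine GC_red3 (riemann_base hσ hRHX) (riemann_base hσ hRHZ) (integral_base hσ hX)
    (integral_base hσ hZ) hE hbig hF hbigZ (k3_base hσ hK) ?_ n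
  rw [power_base hσ]
  exact h

/-- **Splitting.** -/
theorem gtc_split3 [IsAlgClosed L] [Algebra.IsAlgebraic W.K L]
    (hRHX : RiemannHyp Φ σ X) (hRHZ : RiemannHyp Φ σ Z)
    (hX : HasIntegralPolys Φ σ X) (hZ : HasIntegralPolys Φ σ Z)
    {d : ℕ} (hK : IsOrdinaryK3Type Φ σ X d) {n : ℕ}
    (hn : k3Power Φ σ Z X d < n + 1) {i ν : ℕ}
    {V : Submodule W.K (W.H (Z.prod (pw X n)))} (hV : Eff L Φ i ν V) :
    V ≤ Submodule.span W.K {x | ExtL L Φ Z X n i ν x} := by
  obtain ⟨σ', hσ⟩ := exists_ext (L := L) σ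
  exact splitL3 (riemann_base hσ hRHX) (riemann_base hσ hRHZ) (integral_base hσ hX)
    (integral_base hσ hZ) (k3_base hσ hK) (by rw [power_base hσ]; exact hn) hV

end Pool.Agent.W2helper27.K3
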