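import Pool.Agent.N204.GT.Fin
import Pool.Agent.W2helper27.K3.Split

/-!
# The generalized Tate conjecture for powers of varieties of ordinary K3 type
-/

set_option linter.unusedVariables false
set_option linter.unusedSectionVars false

open CategoryTheory AlgebraicGeometry CategoryTheory.Limits TensorProduct

universe u v

namespace Pool.Agent.W2helper27.K3

open Pool.Agent.H914 Pool.Agent.H447 Pool.Agent.W534 Pool.Agent.Y163 VarClass Obj WeilCohomology
  Module Polynomial
open Pool.Agent.R940 hiding mem_of_baseChange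
open Pool.Agent.N204.GT
open Pool.Agent.N204.GH (cv push_cv bij_of_perm)

variable {k : Type u} [Field k] {𝒱 : VarClass k} {ops : CycleOps 𝒱}
  {W : WeilCohomology.{u, v} ops} {X Y Y' Z U S : 𝒱.Obj} {p : ℕ}
  {Φ : FrobSystem W p} {σ : W.K →+* ℂ}

/-- The transcendental rank is smaller than the Betti number. -/
theorem rank_lt [Fact p.Prime] (hint : HasIntegralPolys Φ σ X) {E : X.Cycles} (hE : X.IsCyc 1 E)
    (hbig : Big ops X E) {d : ℕ} (hd : d ≤ X.dim) :
    transcendentalRank Φ σ X d < finrank W.K (W.gr X (2 * d)) := by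
  classical
  set F := frobPoly Φ σ X 1 (2 * d) with hF
  have hFm : F.Monic := by
    rw [hF, frobPoly_eq]
    exact (LinearMap.charpoly_monic _).map _
  -- the class of the intersection of `d` divisors
  have htr : W.tr X (W.cl X E ^ X.dim) ≠ 0 := hbig.tr hE
  have hx0 : W.cl X E ^ d ≠ 0 := by
    intro h0
    apply htr
    have h1 : X.dim = d + (X.dim - d) := by omega
    rw [h1, pow_add, h0, zero_mul, map_zero]
  have hxg : W.cl X E ^ d ∈ W.gr X (2 * d) := pow_mem_gr hE d
  have h1 := divPow_fund_mem (ops := ops) hE d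
  obtain ⟨s, hs, h2⟩ := Φ.cyc h1
  rw [cl_divPow_fund] at h2
  -- a root of the characteristic polynomial
  have h3 : ∃ z : ℂ, F.IsRoot z ∧ z ^ s = (((p : ℂ) ^ Φ.e X) ^ d) ^ s := by
    by_contra hcon
    push Not at hcon
    let _ : Algebra W.K ℂ := σ.toAlgebra
    set f := frobOn Φ X 1 (2 * d) with hf
    set c : W.K := (((p : W.K) ^ Φ.e X) ^ d) ^ s with hc
    have h4 : IsCoprime f.charpoly ((Polynomial.X : (W.K)[X]) ^ s - C c) := by
      rw [Polynomial.isCoprime_iff_aeval_ne_zero_of_isAlgClosed W.K ℂ]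
      intro z
      by_cases hz : aeval z f.charpoly = 0
      · right
        have h5 : F.IsRoot z := by
          rw [hF, frobPoly_eq, IsRoot.def, Polynomial.eval_map]
          exact hz
        have h6 := hcon z h5
        rw [map_sub, map_pow, aeval_X, aeval_C, sub_ne_zero]
        have h7 : (algebraMap W.K ℂ) c = (((p : ℂ) ^ Φ.e X) ^ d) ^ s := by
          change σ c = _
          rw [hc, map_pow, map_pow, map_pow, map_natCast]
        rw [h7]
        exact h6
      · left
        exact hz
    obtain ⟨a, b, hab⟩ := h4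
    let v : W.gr X (2 * d) := ⟨W.cl X E ^ d, hxg⟩
    have hv0 : v ≠ 0 := fun h => hx0 (congrArg Subtype.val h)
    have hkey : ∀ (n : ℕ) (w : W.gr X (2 * d)), (((f ^ n) w : W.gr X (2 * d)) : W.H X) =
        W.map (W534.iter (Φ.Fr X) n) (w : W.H X) := by
      intro n w
      have h5 : frob Φ X n = (frob Φ X 1) ^ n := by
        have h6 := frob_mul_eq (Φ := Φ) (Z := X) 1 n
        rw [one_mul] at h6
        exact h6
      have h6 : W.map (W534.iter (Φ.Fr X) n) (w : W.H X) = (frob Φ X 1 ^ n) (w : W.H X) := by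
        rw [← h5]
        rfl
      rw [h6]
      clear h5 h6
      induction n with
      | zero => rfl
      | succ n ih =>
        rw [pow_succ', pow_succ', Module.End.mul_apply, Module.End.mul_apply, ← ih]
        rfl
    have hv1 : (f ^ s) v = c • v := by
      apply Subtype.ext
      rw [hkey s v]
      change W.map (W534.iter (Φ.Fr X) s) (W.cl X E ^ d) = c • (W.cl X E ^ d)
      rw [h2, hc, ← pow_mul, ← pow_mul]
      congr 2
      ring
    have hv2 := congrArg (fun g => (aeval f g) v) hab
    simp only [map_add, map_mul, map_one, map_sub, map_pow, aeval_X, aeval_C,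
      LinearMap.aeval_self_charpoly, mul_zero, zero_add, Module.End.mul_apply,
      LinearMap.sub_apply, Module.algebraMap_end_apply, Module.End.one_apply, hv1, sub_self,
      map_zero] at hv2
    exact hv0 hv2.symm
  obtain ⟨z, hz1, hz2⟩ := h3
  have hdeg : F.natDegree = finrank W.K (W.gr X (2 * d)) := by
    rw [hF, frobPoly_eq, (LinearMap.charpoly_monic _).natDegree_map, LinearMap.charpoly_natDegree]
  have h4 : {y : ℂ | F.IsRoot y ∧ ∀ m : ℕ, 0 < m → y ^ m ≠ (((p : ℂ) ^ Φ.e X) ^ d) ^ m} ⊆
      ((F.roots.toFinset.erase z : Finset ℂ) : Set ℂ) := by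
    rintro y ⟨hy1, hy2⟩
    rw [Finset.mem_coe, Finset.mem_erase, Multiset.mem_toFinset, mem_roots hFm.ne_zero]
    refine ⟨?_, hy1⟩
    rintro rfl
    exact hy2 s hs hz2
  have h5 := Set.ncard_le_ncard h4 (Finset.finite_toSet _)
  rw [Set.ncard_coe_finset] at h5
  have h6 : z ∈ F.roots.toFinset := by
    rw [Multiset.mem_toFinset, mem_roots hFm.ne_zero]
    exact hz1
  have h7 : (F.roots.toFinset.erase z).card < F.roots.toFinset.card :=
    Finset.card_lt_card (Finset.erase_ssubset h6)
  have h8 : F.roots.toFinset.card ≤ F.natDegree :=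
    (Multiset.toFinset_card_le _).trans (Polynomial.card_roots' F)
  rw [← hdeg]
  exact lt_of_le_of_lt h5 (h7.trans_le h8)

/-- The degree is at most the dimension. -/
lemma le_dim [Fact p.Prime] (hint : HasIntegralPolys Φ σ X) {d : ℕ}
    (hK : IsOrdinaryK3Type Φ σ X d) : d ≤ X.dim := by
  by_contra hcon
  push Not at hcon
  obtain ⟨P, hP⟩ := hint (2 * d)
  obtain ⟨z, -, hz, -⟩ := hK.middle P hP
  have h1 : W.gr X (2 * d) = ⊥ := W.gr_eq_bot X _ (by omega)
  have h2 : (frobPoly Φ σ X 1 (2 * d)).natDegree = 0 := by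
    rw [frobPoly_eq, (LinearMap.charpoly_monic _).natDegree_map, LinearMap.charpoly_natDegree, h1]
    exact finrank_bot _ _
  have h3 : P.natDegree = 0 := by
    rw [hP, natDegree_map_eq_of_injective (RingHom.injective_int (Int.castRingHom ℂ))] at h2
    exact h2
  have h4 : (P.map (Int.castRingHom (PadicAlgCl p))).natDegree = 0 :=
    Nat.eq_zero_of_le_zero (natDegree_map_le.trans h3.le)
  have h5 : (P.map (Int.castRingHom (PadicAlgCl p))).rootMultiplicity z ≤
      (P.map (Int.castRingHom (PadicAlgCl p))).natDegree := by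
    classical
    rw [← count_roots]
    exact (Multiset.count_le_card _ _).trans (card_roots' _)
  omega

theorem main [Fact p.Prime] (hW : ∀ Y, WeilConjectures Φ σ Y) (hX : HasBigDivisor ops X)
    (hZ : HasBigDivisor ops Z) {d : ℕ} (hK : IsOrdinaryK3Type Φ σ X d) :
    transcendentalRank Φ σ X d < W.betti X (2 * d) ∧
    (∀ n, k3Power Φ σ Z X d < n + 1 → NoNewEffective Φ Z X n) ∧
    (GTC Φ (Z.prod (pw X (k3Power Φ σ Z X d - 1))) → GTCForAllPowers Φ Z X) := by
  obtain ⟨E, hE, hbig⟩ := hX
  obtain ⟨F, hF, hbigZ⟩ := hZ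
  refine ⟨rank_lt (hW X).2 hE hbig (le_dim (hW X).2 hK), fun n hn i c V hV => ?_, fun h n => ?_⟩
  · refine (gtc_split3 (hW X).1 (hW Z).1 (hW X).2 (hW Z).2 hK hn hV).trans
      (Submodule.span_mono fun x hx => ext_of hx)
  · have h3 : GTCL (AlgebraicClosure W.K) Φ (Z.prod (pw X n)) :=
      gtc_red3 (hW X).1 (hW Z).1 (hW X).2 (hW Z).2 hE hbig hF hbigZ hK h n
    exact ⟨h3, fun Y hY => GTCL.of_dom (dom_of hY) h3⟩

end Pool.Agent.W2helper27.K3
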